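import Pool.Agent.Helper46.FA.Mut

/-!
A check of the definitions: the unknot bounds a disc.
-/

namespace Pool.Agent.Helper46.FA

theorem bare_forget {L : Type} [Lab L] (w : Diagram (Mark L)) : bare (forget w) = bare w := by
  unfold bare forget relabel
  rw [List.map_map]
  congr 1
  funext e
  obtain ⟨l, k, r⟩ := e
  cases k <;> simp [Elem.map, Kind.map, Function.comp_def]

theorem unknot_bounds : BoundsDisjointDiscs [pc 0 0 (.cup ()), pc 0 0 (.cap ())] := by
  let x : Ori ℕ := ⟨0, true⟩
  let E : Diagram (Ori ℕ) := [⟨[], .cup x, []⟩, ⟨[], .cap x, []⟩]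
  have hE : Closed E := goes_cons' rfl (goes_cons' rfl (Goes.nil _))
  refine ⟨E, E, hE, rfl, ?_, Grows.refl hE, ?_⟩
  · intro E' hc hf
    obtain ⟨a, w1, rfl, h1, hb⟩ := peel_cup (L := Mark (Ori ℕ)) (l := []) (r := []) (i := 0)
      (j := 0) (W := [pc 0 0 (.cap ())]) hc (by
        rw [← bare_forget, hf]; rfl) rfl
    obtain ⟨-, w2, rfl, h2, hb⟩ := peel_cap (L := Mark (Ori ℕ)) (l := []) (r := []) (i := 0)
      (j := 0) (W := []) h1 hb rfl
    have hw : w2 = [] := by simpa [bare, relabel] using hb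
    subst hw
    refine ⟨fun _ => a.bit, fun y hy => ?_⟩
    simp [labels, Elem.src, Elem.tgt, Kind.src, Kind.tgt] at hy
    rcases hy with rfl | rfl | rfl | rfl <;> rfl
  · have h := Grows.birth (C := ℕ) [] [] [] [] x (Grows.refl (Goes.nil [])) (Goes.nil _)
      (Goes.nil _)
    have e : ((0 : ℕ → ℤ) + Pi.single x.col 1)
        = fun c => if c ∈ (labels E).map Ori.col then 1 else 0 := by
      funext c
      simp only [labels, E, Elem.src, Elem.tgt, Kind.src, Kind.tgt, Pi.add_apply, Pi.zero_apply,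
        zero_add, x]
      by_cases hc : c = 0
      · subst hc; simp
      · simp [hc]
    rw [← e]
    exact h

end Pool.Agent.Helper46.FA
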