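import Mathlib

/-!
Link diagrams as words, isotopy, movies of surfaces, mutation and pretzel links.

A diagram is read from bottom to top.  At every level it is a row of strands, and each
elementary piece is a cup, a cap or a crossing placed somewhere in the row.  Strands may
carry labels; a turn of a strand changes the label by the operation `bar`.
-/

namespace Pool.Agent.Helper46.FA

/-- Label types: `bar` is the effect of a turning point on the label of a strand. -/
class Lab (L : Type) where
  /-- The label of the other leg of a turning point. -/
  bar : L → L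
  /-- Turning twice gives the label back. -/
  bar_bar : ∀ x, bar (bar x) = x

export Lab (bar bar_bar)

/-- No label at all. -/
instance : Lab Unit := ⟨fun _ => (), fun _ => rfl⟩

/-- Labels of a coloured oriented diagram: the colour of the strand, and whether it points
upwards. -/
@[ext] structure Ori (C : Type) where
  /-- The colour. -/
  col : C
  /-- The direction. -/
  dir : Bool

/-- A turn keeps the colour and changes the direction. -/
instance (C : Type) : Lab (Ori C) := ⟨fun x => ⟨x.col, !x.dir⟩, fun x => by simp⟩

/-- Labels with an additional bit, which does not change at a turn. -/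
@[ext] structure Mark (L : Type) where
  /-- The label. -/
  lab : L
  /-- The bit. -/
  bit : Bool

instance (L : Type) [Lab L] : Lab (Mark L) :=
  ⟨fun x => ⟨bar x.lab, x.bit⟩, fun x => by simp [bar_bar]⟩

/-- The elementary pieces.  `cross x y b`: the strand labelled `x` comes from the left and
goes to the right, `y` goes to the left, and the first one is above exactly when `b` is
true. -/
inductive Kind (L : Type) where
  | cup (x : L) : Kind L
  | cap (x : L) : Kind L
  | cross (x y : L) (b : Bool) : Kind L

variable {L M : Type} [Lab L] [Lab M]

/-- Labels below the piece. -/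
def Kind.src : Kind L → List L
  | .cup _ => []
  | .cap x => [x, bar x]
  | .cross x y _ => [x, y]

/-- Labels above the piece. -/
def Kind.tgt : Kind L → List L
  | .cup x => [x, bar x]
  | .cap _ => []
  | .cross x y _ => [y, x]

/-- A piece with straight strands on its left and on its right. -/
structure Elem (L : Type) where
  /-- The strands on the left. -/
  left : List L
  /-- The piece. -/
  kind : Kind L
  /-- The strands on the right. -/
  right : List L

/-- The row below. -/
def Elem.src (e : Elem L) : List L := e.left ++ e.kind.src ++ e.right

/-- The row above. -/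
def Elem.tgt (e : Elem L) : List L := e.left ++ e.kind.tgt ++ e.right

/-- A diagram is a list of elementary pieces, from bottom to top. -/
abbrev Diagram (L : Type) := List (Elem L)

/-- `Goes s w t`: the pieces of `w` fit together, from the row `s` to the row `t`. -/
inductive Goes : List L → Diagram L → List L → Prop
  | nil (s : List L) : Goes s [] s
  | cons (e : Elem L) {w : Diagram L} {t : List L} (h : Goes e.tgt w t) : Goes e.src (e :: w) t

/-- A closed diagram, that is a link diagram. -/
def Closed (w : Diagram L) : Prop := Goes [] w []

/-- Change of labels. -/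
def Kind.map (f : L → M) : Kind L → Kind M
  | .cup x => .cup (f x)
  | .cap x => .cap (f x)
  | .cross x y b => .cross (f x) (f y) b

/-- Change of labels. -/
def Elem.map (f : L → M) (e : Elem L) : Elem M := ⟨e.left.map f, e.kind.map f, e.right.map f⟩

/-- Change of labels. -/
def relabel (f : L → M) (w : Diagram L) : Diagram M := w.map (Elem.map f)

/-- The diagram without labels. -/
def bare (w : Diagram L) : Diagram Unit := relabel (fun _ => ()) w

/-- Forget the additional bits. -/
def forget (w : Diagram (Mark L)) : Diagram L := relabel Mark.lab w

/-- The elementary changes of a diagram: exchange of the heights of two distant pieces,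
straightening of a zigzag, the three Reidemeister moves, and moving a crossing past a
turning point. -/
inductive Local : Diagram L → Diagram L → Prop
  | far (g h : Kind L) (l m r : List L) :
      Local [⟨l, g, m ++ h.src ++ r⟩, ⟨l ++ g.tgt ++ m, h, r⟩]
        [⟨l ++ g.src ++ m, h, r⟩, ⟨l, g, m ++ h.tgt ++ r⟩]
  | zigLeft (x : L) (l r : List L) :
      Local [⟨l, .cup x, x :: r⟩, ⟨l ++ [x], .cap (bar x), r⟩] []
  | zigRight (x : L) (l r : List L) :
      Local [⟨l ++ [x], .cup (bar x), r⟩, ⟨l, .cap x, x :: r⟩] []
  | curlCap (x : L) (b : Bool) (l r : List L) :
      Local [⟨l, .cross x (bar x) b, r⟩, ⟨l, .cap (bar x), r⟩] [⟨l, .cap x, r⟩]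
  | curlCup (x : L) (b : Bool) (l r : List L) :
      Local [⟨l, .cup x, r⟩, ⟨l, .cross x (bar x) b, r⟩] [⟨l, .cup (bar x), r⟩]
  | cancel (x y : L) (b : Bool) (l r : List L) :
      Local [⟨l, .cross x y b, r⟩, ⟨l, .cross y x (!b), r⟩] []
  | triple (x y z : L) (b : Bool) (l r : List L) :
      Local [⟨l, .cross x y b, z :: r⟩, ⟨l ++ [y], .cross x z b, r⟩, ⟨l, .cross y z b, x :: r⟩]
        [⟨l ++ [x], .cross y z b, r⟩, ⟨l, .cross x z b, y :: r⟩, ⟨l ++ [z], .cross x y b, r⟩]
  | slideCap (x y : L) (b : Bool) (l r : List L) :
      Local [⟨l, .cross x y b, bar x :: r⟩, ⟨l ++ [y], .cap x, r⟩]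
        [⟨l ++ [x], .cross y (bar x) (!b), r⟩, ⟨l, .cap x, y :: r⟩]
  | slideCup (x y : L) (b : Bool) (l r : List L) :
      Local [⟨l ++ [y], .cup x, r⟩, ⟨l, .cross y x b, bar x :: r⟩]
        [⟨l, .cup x, y :: r⟩, ⟨l ++ [x], .cross (bar x) y (!b), r⟩]

/-- One elementary change inside a link diagram. -/
inductive Step : Diagram L → Diagram L → Prop
  | mk {x y : Diagram L} (u v : Diagram L) (h : Local x y) (h1 : Closed (u ++ x ++ v))
      (h2 : Closed (u ++ y ++ v)) : Step (u ++ x ++ v) (u ++ y ++ v)

/-- Isotopy of link diagrams: a finite sequence of elementary changes and their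
inverses. -/
def Isotopic : Diagram L → Diagram L → Prop := Relation.EqvGen Step

/-- `Grows D D' n`: there is a movie of disjoint oriented surfaces, one for each colour,
from the link `D` to the link `D'`, which consists of isotopies, births of circles and
fusions.  A fusion is a saddle that joins two strands of the same colour which belong to
different components of the link before the saddle; this is witnessed by additional bits,
constant along each component, which differ on the two strands.  The number `n c` is the
number of births minus the number of fusions in the colour `c`. -/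
inductive Grows {C : Type} [DecidableEq C] :
    Diagram (Ori C) → Diagram (Ori C) → (C → ℤ) → Prop
  | refl {D : Diagram (Ori C)} (h : Closed D) : Grows D D 0
  | isotopy {D E E' : Diagram (Ori C)} {n : C → ℤ} (h : Grows D E n) (h' : Isotopic E E') :
      Grows D E' n
  | birth {D : Diagram (Ori C)} {n : C → ℤ} (u v : Diagram (Ori C)) (l r : List (Ori C))
      (x : Ori C) (h : Grows D (u ++ v) n) (hu : Goes [] u (l ++ r)) (hv : Goes (l ++ r) v []) :
      Grows D (u ++ [⟨l, .cup x, r⟩, ⟨l, .cap x, r⟩] ++ v) (n + Pi.single x.col 1)
  | fusion {D : Diagram (Ori C)} {n : C → ℤ} (u v : Diagram (Mark (Ori C)))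
      (l r : List (Mark (Ori C))) (x : Ori C) (h : Grows D (forget (u ++ v)) n)
      (hu : Goes [] u (l ++ [⟨x, true⟩, ⟨bar x, false⟩] ++ r))
      (hv : Goes (l ++ [⟨x, true⟩, ⟨bar x, false⟩] ++ r) v []) :
      Grows D (forget u ++ [⟨l.map Mark.lab, .cap x, r.map Mark.lab⟩,
        ⟨l.map Mark.lab, .cup x, r.map Mark.lab⟩] ++ forget v) (n - Pi.single x.col 1)

/-- All labels that occur in a diagram. -/
def labels (w : Diagram L) : List L := w.flatMap fun e => e.src ++ e.tgt

/-- Different components of the link have different colours: whenever bits are attached to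
the strands so that they are constant along each component, the bit of a strand is a
function of its colour. -/
def ComponentsColoured {C : Type} (E : Diagram (Ori C)) : Prop :=
  ∀ E' : Diagram (Mark (Ori C)), Closed E' → forget E' = E →
    ∃ f : C → Bool, ∀ x ∈ labels E', x.bit = f x.lab.col

/-- The components of the link `D` bound disjoint discs in the four dimensional ball.  The
discs are given in the normal form of Kawauchi, Shibuya and Suzuki: going into the ball,
first circles are born and are fused to the components of `D` until one knot is left for
each component, giving a link `F`; and `F` is obtained, from the inside, by fusing an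
unlink, again to one knot for each component. -/
def BoundsDisjointDiscs (D : Diagram Unit) : Prop :=
  ∃ E F : Diagram (Ori ℕ), Closed E ∧ bare E = D ∧ ComponentsColoured E ∧
    Grows E F 0 ∧
    Grows [] F (fun c => if c ∈ (labels E).map Ori.col then 1 else 0)

/-! ### Mutation -/

/-- Put a tangle between straight strands. -/
def embed (l r : List L) (T : Diagram L) : Diagram L :=
  T.map fun e => ⟨l ++ e.left, e.kind, e.right ++ r⟩

/-- Half a turn about the vertical axis in the plane of the diagram. -/
def turnV (T : Diagram Unit) : Diagram Unit :=
  T.map fun e => ⟨e.right, e.kind, e.left⟩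

/-- Exchange of cups and caps. -/
def Kind.upsideDown : Kind L → Kind L
  | .cup x => .cap x
  | .cap x => .cup x
  | .cross x y b => .cross x y b

/-- Half a turn about the horizontal axis in the plane of the diagram. -/
def turnH (T : Diagram Unit) : Diagram Unit :=
  (T.map fun e => ⟨e.left, e.kind.upsideDown, e.right⟩).reverse

/-- Conway mutation: a tangle with four endpoints is replaced by the result of half a turn
about one of the three coordinate axes. -/
inductive Mutation : Diagram Unit → Diagram Unit → Prop
  | mk (u v T T' : Diagram Unit) (l r : List Unit) (hT : Goes [(), ()] T [(), ()])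
      (h : T' = turnV T ∨ T' = turnH T ∨ T' = turnH (turnV T))
      (h1 : Closed (u ++ embed l r T ++ v)) (h2 : Closed (u ++ embed l r T' ++ v)) :
      Mutation (u ++ embed l r T ++ v) (u ++ embed l r T' ++ v)

/-- A mutant: the result of a finite sequence of isotopies and mutations. -/
def Mutant : Diagram Unit → Diagram Unit → Prop :=
  Relation.ReflTransGen fun D D' => Isotopic D D' ∨ Mutation D D'

/-! ### Pretzel links -/

/-- A piece with a given number of strands on the left and on the right. -/
def pc (i j : ℕ) (k : Kind Unit) : Elem Unit := ⟨List.replicate i (), k, List.replicate j ()⟩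

/-- Columns of crossings, column number `i` and following. -/
def columns : ℕ → List ℤ → Diagram Unit
  | _, [] => []
  | i, a :: as =>
    List.replicate a.natAbs (pc (2 * i) (2 * as.length) (.cross () () (decide (0 ≤ a))))
      ++ columns (i + 1) as

/-- The pretzel link with the given numbers of crossings in its columns, the sign of a
number being the handedness of the crossings.  This is the Montesinos link of the
rational tangles of slopes `a / 1`. -/
def pretzel (a : List ℤ) : Diagram Unit :=
  pc 0 0 (.cup ()) :: (List.range (a.length - 1)).map (fun j => pc (2 * j + 1) 1 (.cup ()))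
    ++ columns 0 a
    ++ ((List.range (a.length - 1)).map (fun j => pc (2 * j + 1) 1 (.cap ()))).reverse
    ++ [pc 0 0 (.cap ())]

/-- The conditions on the data, a list of pairs of a numerator and a denominator. -/
def Admissible (d : List (ℤ × ℤ)) : Prop :=
  d ≠ [] ∧ (∀ x ∈ d, x.1 ≠ 0 ∧ x.2 ≠ 0 ∧ IsCoprime x.1 x.2) ∧
  (d.filter fun x => Even x.1).length ≤ 1 ∧
  (∀ x ∈ d, 2 ≤ |(x.1 : ℚ) / x.2|) ∧
  ∀ x ∈ d, ∀ y ∈ d, Int.gcd x.1 y.1 = 1 ∨ (x.1 : ℚ) / x.2 = y.1 / y.2 ∨
    (x.1 : ℚ) / x.2 = -(y.1 / y.2)

/-- The symmetric Montesinos link of integral slopes. -/
def symmetric (a : List ℤ) : Diagram Unit := pretzel (a ++ (a.map fun x => -x).reverse)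

end Pool.Agent.Helper46.FA
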