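import Pool.Agent.Helper46.FA.Str
import Pool.Agent.Helper46.FA.Diag

/-!
The invariant of one colour of a coloured oriented link diagram.
-/

namespace Pool.Agent.Helper46.FA

set_option linter.unusedSimpArgs false
set_option linter.unusedSectionVars false

variable {C : Type} [DecidableEq C]

/-- Number of strands of a colour. -/
def rk (c : C) (l : List (Ori C)) : ℕ := l.countP (fun x => decide (x.col = c))

@[simp] theorem rk_nil (c : C) : rk c [] = 0 := rfl

@[simp] theorem rk_append (c : C) (l m : List (Ori C)) : rk c (l ++ m) = rk c l + rk c m :=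
  List.countP_append

@[simp] theorem rk_cons (c : C) (x : Ori C) (l : List (Ori C)) :
    rk c (x :: l) = (if x.col = c then 1 else 0) + rk c l := by
  unfold rk
  rw [List.countP_cons]
  split_ifs with h1 h2 h2 <;> simp_all
  omega

@[simp] theorem bar_col (x : Ori C) : (bar x).col = x.col := rfl
@[simp] theorem bar_dir (x : Ori C) : (bar x).dir = !x.dir := rfl

/-- Phase of a crossing. -/
noncomputable def ph (x y : Ori C) (b : Bool) : ℂ := if x.dir = y.dir then zt b else - ew b

/-- The operator and the factor of a piece. -/
noncomputable def act (c : C) : Kind (Ori C) → Option (ℂ × Gen)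
  | .cup x => if x.col = c then some (1, .cup) else none
  | .cap x => if x.col = c then some (1, .cap) else none
  | .cross x y b => if x.col = c ∧ y.col = c then some (ph x y b, .X b) else none

/-- The operator of a piece. -/
noncomputable def amp1 (c : C) (e : Elem (Ori C)) : Op :=
  match act c e.kind with
  | none => 1
  | some (a, g) => a • op g (rk c e.left)

/-- The operator of a word. -/
noncomputable def amp (c : C) : Diagram (Ori C) → Op
  | [] => 1
  | e :: w => amp c w * amp1 c e

theorem amp_append (c : C) (u v : Diagram (Ori C)) : amp c (u ++ v) = amp c v * amp c u := by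
  induction u with
  | nil => simp [amp]
  | cons e u ih => rw [List.cons_append, amp, ih, amp, mul_assoc]

theorem amp1_none {c : C} {e : Elem (Ori C)} (h : act c e.kind = none) : amp1 c e = 1 := by
  unfold amp1; rw [h]

theorem amp1_some {c : C} {e : Elem (Ori C)} {a : ℂ} {g : Gen} (h : act c e.kind = some (a, g)) :
    amp1 c e = a • op g (rk c e.left) := by
  unfold amp1; rw [h]

theorem rk_none {c : C} {k : Kind (Ori C)} (h : act c k = none) : rk c k.src = rk c k.tgt := by
  cases k with
  | cup x =>
    simp only [act] at h
    split_ifs at h with h1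
    simp [Kind.src, Kind.tgt, h1]
  | cap x =>
    simp only [act] at h
    split_ifs at h with h1
    simp [Kind.src, Kind.tgt, h1]
  | cross x y b =>
    simp only [Kind.src, Kind.tgt, rk_cons, rk_nil]
    omega

theorem rk_some {c : C} {k : Kind (Ori C)} {a : ℂ} {g : Gen} (h : act c k = some (a, g)) :
    rk c k.src = g.inn ∧ rk c k.tgt = g.out := by
  cases k with
  | cup x =>
    simp only [act] at h
    split_ifs at h with h1
    simp only [Option.some.injEq, Prod.mk.injEq] at h
    rw [← h.2]
    simp [Kind.src, Kind.tgt, h1, Gen.inn, Gen.out]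
  | cap x =>
    simp only [act] at h
    split_ifs at h with h1
    simp only [Option.some.injEq, Prod.mk.injEq] at h
    rw [← h.2]
    simp [Kind.src, Kind.tgt, h1, Gen.inn, Gen.out]
  | cross x y b =>
    simp only [act] at h
    split_ifs at h with h1
    simp only [Option.some.injEq, Prod.mk.injEq] at h
    rw [← h.2]
    simp [Kind.src, Kind.tgt, h1.1, h1.2, Gen.inn, Gen.out]

theorem amp_two (c : C) (e f : Elem (Ori C)) : amp c [e, f] = amp1 c f * amp1 c e := by
  simp [amp]

theorem amp_three (c : C) (e f g : Elem (Ori C)) :
    amp c [e, f, g] = amp1 c g * (amp1 c f * amp1 c e) := by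
  simp [amp, mul_assoc]

theorem amp_far (c : C) (g h : Kind (Ori C)) (l m r : List (Ori C)) :
    amp c [⟨l, g, m ++ h.src ++ r⟩, ⟨l ++ g.tgt ++ m, h, r⟩]
      = amp c [⟨l ++ g.src ++ m, h, r⟩, ⟨l, g, m ++ h.tgt ++ r⟩] := by
  rw [amp_two, amp_two]
  rcases hg : act c g with _ | ⟨a, g'⟩
  · rw [amp1_none (e := ⟨l, g, m ++ h.src ++ r⟩) hg, amp1_none (e := ⟨l, g, m ++ h.tgt ++ r⟩) hg,
      mul_one, one_mul]
    unfold amp1
    simp only [rk_append]
    rw [rk_none hg]
  · rw [amp1_some (e := ⟨l, g, m ++ h.src ++ r⟩) hg, amp1_some (e := ⟨l, g, m ++ h.tgt ++ r⟩) hg]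
    rcases hh : act c h with _ | ⟨b, h'⟩
    · rw [amp1_none (e := ⟨l ++ g.tgt ++ m, h, r⟩) hh, amp1_none (e := ⟨l ++ g.src ++ m, h, r⟩) hh,
        mul_one, one_mul]
    · rw [amp1_some (e := ⟨l ++ g.tgt ++ m, h, r⟩) hh, amp1_some (e := ⟨l ++ g.src ++ m, h, r⟩) hh]
      simp only [rk_append]
      rw [(rk_some hg).1, (rk_some hg).2, smul_mul_smul_comm, smul_mul_smul_comm, far, mul_comm a b]

theorem ph_comm (x y : Ori C) (b : Bool) : ph x y b = ph y x b := by
  unfold ph
  simp only [eq_comm]

theorem zt_ew (b : Bool) : ew b * zt b = zt (!b) := by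
  have h := ew_sq b
  unfold zt
  rw [ew_not]
  linear_combination (-rt / 2) * h

theorem ph_slide (x y : Ori C) (b : Bool) : ph x y b * (- zt b) = ph y (bar x) (!b) := by
  unfold ph
  have h1 : zt b * zt b = - ew b := by rw [← pow_two]; exact zt_sq b
  have h2 := zt_ew b
  rcases hx : x.dir <;> rcases hy : y.dir <;> simp [hx, hy, ew_not, h1, h2]

theorem amp_local (c : C) {x y : Diagram (Ori C)} (h : Local x y) : amp c x = amp c y := by
  cases h with
  | far g h l m r => exact amp_far c g h l m r
  | zigLeft x l r =>
    rw [amp_two]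
    by_cases hx : x.col = c
    · simp [amp, amp1, act, hx, zig1]
    · simp [amp, amp1, act, hx]
  | zigRight x l r =>
    rw [amp_two]
    by_cases hx : x.col = c
    · simp [amp, amp1, act, hx, zig2]
    · simp [amp, amp1, act, hx]
  | curlCap x b l r =>
    rw [amp_two]
    by_cases hx : x.col = c
    · have h1 : ew b * ew b = -1 := by rw [← pow_two]; exact ew_sq b
      simp [amp, amp1, act, hx, capX, ph, smul_smul, h1]
    · simp [amp, amp1, act, hx]
  | curlCup x b l r =>
    rw [amp_two]
    by_cases hx : x.col = c
    · have h1 : ew b * ew b = -1 := by rw [← pow_two]; exact ew_sq b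
      simp [amp, amp1, act, hx, Xcup, ph, smul_smul, h1]
    · simp [amp, amp1, act, hx]
  | cancel x y b l r =>
    rw [amp_two]
    by_cases hx : x.col = c ∧ y.col = c
    · obtain ⟨hx, hy⟩ := hx
      simp [amp, amp1, act, hx, hy, XX, smul_smul]
      rw [ph_comm y x]
      unfold ph
      split_ifs
      · rw [zt_mul, one_smul]
      · rw [neg_mul_neg, ew_mul, one_smul]
    · have hy : ¬ (y.col = c ∧ x.col = c) := fun h => hx ⟨h.2, h.1⟩
      simp [amp, amp1, act, hx, hy]
  | triple x y z b l r =>
    rw [amp_three, amp_three]
    by_cases hx : x.col = c <;> by_cases hy : y.col = c <;> by_cases hz : z.col = c <;>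
      simp [amp1, act, hx, hy, hz]
    rw [XXX, smul_smul, smul_smul, smul_smul, smul_smul]
    congr 1
    ring
  | slideCap x y b l r =>
    rw [amp_two, amp_two]
    by_cases hx : x.col = c <;> by_cases hy : y.col = c <;>
      simp [amp1, act, hx, hy]
    rw [FA.slideCap, smul_smul, ph_slide]
  | slideCup x y b l r =>
    rw [amp_two, amp_two]
    by_cases hx : x.col = c <;> by_cases hy : y.col = c <;>
      simp [amp1, act, hx, hy]
    rw [FA.slideCup, smul_smul, ph_comm y x, ph_slide, ph_comm]

/-- The invariant of a diagram in a colour. -/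
noncomputable def J (c : C) (w : Diagram (Ori C)) : ℂ := amp c w (fun _ => 1) (fun _ => false)

theorem J_step (c : C) {D D' : Diagram (Ori C)} (h : Step D D') : J c D = J c D' := by
  obtain ⟨u, v, h, _, _⟩ := h
  unfold J
  simp only [amp_append]
  rw [amp_local c h]

theorem J_isotopic (c : C) {D D' : Diagram (Ori C)} (h : Isotopic D D') : J c D = J c D' := by
  induction h with
  | rel _ _ h => exact J_step c h
  | refl _ => rfl
  | symm _ _ _ ih => exact ih.symm
  | trans _ _ _ _ _ ih1 ih2 => exact ih1.trans ih2

theorem J_birth (c : C) (u v : Diagram (Ori C)) (l r : List (Ori C)) (x : Ori C) :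
    J c (u ++ [⟨l, .cup x, r⟩, ⟨l, .cap x, r⟩] ++ v)
      = (if x.col = c then rt else 1) * J c (u ++ v) := by
  unfold J
  simp only [amp_append, amp_two]
  by_cases hx : x.col = c
  · simp [amp1, act, hx, loop, mul_assoc]
  · simp [amp1, act, hx]

/-- The bits of the strands of a colour. -/
def bits (c : C) (l : List (Mark (Ori C))) : List Bool :=
  (l.filter (fun x => decide (x.lab.col = c))).map Mark.bit

@[simp] theorem bits_nil (c : C) : bits c [] = [] := rfl

@[simp] theorem bits_append (c : C) (l m : List (Mark (Ori C))) :
    bits c (l ++ m) = bits c l ++ bits c m := by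
  simp [bits]

@[simp] theorem bits_cons (c : C) (x : Mark (Ori C)) (l : List (Mark (Ori C))) :
    bits c (x :: l) = if x.lab.col = c then x.bit :: bits c l else bits c l := by
  unfold bits
  rw [List.filter_cons]
  split_ifs with h1 h2 h2 <;> simp_all

theorem bits_length (c : C) (l : List (Mark (Ori C))) :
    (bits c l).length = rk c (l.map Mark.lab) := by
  induction l with
  | nil => rfl
  | cons x l ih =>
    rw [bits_cons, List.map_cons, rk_cons]
    split_ifs <;> simp [ih]
    omega

theorem G_amp1 (c : C) (e : Elem (Mark (Ori C))) (he : Even (bits c e.src).length) :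
    Even (bits c e.tgt).length ∧ ∃ a : ℂ,
      amp1 c (e.map Mark.lab) * G false (bits c e.src)
        = a • (G false (bits c e.tgt) * amp1 c (e.map Mark.lab)) := by
  obtain ⟨l, k, r⟩ := e
  cases k with
  | cup x =>
    by_cases hx : x.lab.col = c
    · have h1 : bits c (Elem.mk l (Kind.cup x) r).src = bits c l ++ bits c r := by
        simp [Elem.src, Kind.src]
      have h2 : bits c (Elem.mk l (Kind.cup x) r).tgt
          = bits c l ++ x.bit :: x.bit :: bits c r := by
        have : (bar x).lab.col = c := hx
        simp [Elem.tgt, Kind.tgt, hx, this]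
        rfl
      rw [h1] at he
      rw [h1, h2]
      have h3 : Even ((bits c l).length + (bits c r).length) := by simpa using he
      refine ⟨?_, 1, ?_⟩
      · obtain ⟨z, hz⟩ := h3
        exact ⟨z + 1, by simp; omega⟩
      · have := G_cup (bits c l) (bits c r) false x.bit h3
        rw [bits_length] at this
        simpa [amp1, act, Elem.map, Kind.map, hx] using this
    · have h1 : bits c (Elem.mk l (Kind.cup x) r).src = bits c l ++ bits c r := by
        simp [Elem.src, Kind.src]
      have h2 : bits c (Elem.mk l (Kind.cup x) r).tgt = bits c l ++ bits c r := by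
        have : ¬ (bar x).lab.col = c := hx
        simp [Elem.tgt, Kind.tgt, hx, this]
      rw [h1] at he
      rw [h1, h2]
      refine ⟨he, 1, ?_⟩
      simp [amp1, act, Elem.map, Kind.map, hx]
  | cap x =>
    by_cases hx : x.lab.col = c
    · have h1 : bits c (Elem.mk l (Kind.cap x) r).tgt = bits c l ++ bits c r := by
        simp [Elem.tgt, Kind.tgt]
      have h2 : bits c (Elem.mk l (Kind.cap x) r).src
          = bits c l ++ x.bit :: x.bit :: bits c r := by
        have : (bar x).lab.col = c := hx
        simp [Elem.src, Kind.src, hx, this]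
        rfl
      rw [h2] at he
      rw [h1, h2]
      have h3 : Even ((bits c l).length + (bits c r).length) := by
        obtain ⟨z, hz⟩ := he
        simp at hz
        exact ⟨z - 1, by omega⟩
      refine ⟨by simpa using h3, 1, ?_⟩
      have := G_cap (bits c l) (bits c r) false x.bit h3
      rw [bits_length] at this
      simpa [amp1, act, Elem.map, Kind.map, hx] using this
    · have h1 : bits c (Elem.mk l (Kind.cap x) r).tgt = bits c l ++ bits c r := by
        simp [Elem.tgt, Kind.tgt]
      have h2 : bits c (Elem.mk l (Kind.cap x) r).src = bits c l ++ bits c r := by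
        have : ¬ (bar x).lab.col = c := hx
        simp [Elem.src, Kind.src, hx, this]
      rw [h2] at he
      rw [h1, h2]
      refine ⟨he, 1, ?_⟩
      simp [amp1, act, Elem.map, Kind.map, hx]
  | cross x y b =>
    by_cases hx : x.lab.col = c
    · by_cases hy : y.lab.col = c
      · have h1 : bits c (Elem.mk l (Kind.cross x y b) r).src
            = bits c l ++ x.bit :: y.bit :: bits c r := by
          simp [Elem.src, Kind.src, hx, hy]
        have h2 : bits c (Elem.mk l (Kind.cross x y b) r).tgt
            = bits c l ++ y.bit :: x.bit :: bits c r := by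
          simp [Elem.tgt, Kind.tgt, hx, hy]
        rw [h1] at he
        rw [h1, h2]
        have h3 : Even ((bits c l).length + (bits c r).length) := by
          obtain ⟨z, hz⟩ := he
          simp at hz
          exact ⟨z - 1, by omega⟩
        refine ⟨?_, eps b x.bit y.bit (bits c l).length, ?_⟩
        · simpa using he
        · have := G_X (bits c l) (bits c r) false x.bit y.bit b h3
          rw [bits_length] at this ⊢
          simp only [amp1, act, Elem.map, Kind.map, hx, hy, and_self, if_true]
          rw [smul_mul_assoc, this, mul_smul_comm, smul_comm]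
      · have h1 : bits c (Elem.mk l (Kind.cross x y b) r).src
            = bits c l ++ x.bit :: bits c r := by
          simp [Elem.src, Kind.src, hx, hy]
        have h2 : bits c (Elem.mk l (Kind.cross x y b) r).tgt
            = bits c l ++ x.bit :: bits c r := by
          simp [Elem.tgt, Kind.tgt, hx, hy]
        rw [h1] at he
        rw [h1, h2]
        refine ⟨he, 1, ?_⟩
        simp [amp1, act, Elem.map, Kind.map, hx, hy]
    · have h1 : bits c (Elem.mk l (Kind.cross x y b) r).src
          = bits c (Elem.mk l (Kind.cross x y b) r).tgt := by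
        simp [Elem.src, Kind.src, Elem.tgt, Kind.tgt, hx]
      rw [← h1]
      refine ⟨he, 1, ?_⟩
      simp [amp1, act, Elem.map, Kind.map, hx]

theorem G_amp (c : C) {s t : List (Mark (Ori C))} {w : Diagram (Mark (Ori C))}
    (h : Goes s w t) (he : Even (bits c s).length) :
    Even (bits c t).length ∧ ∃ a : ℂ,
      amp c (forget w) * G false (bits c s) = a • (G false (bits c t) * amp c (forget w)) := by
  induction h with
  | nil s => exact ⟨he, 1, by simp [forget, relabel, amp]⟩
  | cons e h ih =>
    rename_i w t
    obtain ⟨h1, a, ha⟩ := G_amp1 c e he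
    obtain ⟨h2, b, hb⟩ := ih h1
    refine ⟨h2, b * a, ?_⟩
    show amp c (forget w) * amp1 c (e.map Mark.lab) * G false (bits c e.src) = _ • (_ *
      (amp c (forget w) * amp1 c (e.map Mark.lab)))
    rw [mul_assoc, ha, mul_smul_comm, ← mul_assoc, hb, smul_mul_assoc, smul_smul, mul_comm a b,
      mul_assoc]

theorem forget_append (u v : Diagram (Mark (Ori C))) : forget (u ++ v) = forget u ++ forget v := by
  simp [forget, relabel]

/-- The effect of a fusion. -/
theorem J_fusion (c : C) (u v : Diagram (Mark (Ori C))) (l r : List (Mark (Ori C))) (x : Ori C)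
    (hu : Goes [] u (l ++ [⟨x, true⟩, ⟨bar x, false⟩] ++ r))
    (hv : Goes (l ++ [⟨x, true⟩, ⟨bar x, false⟩] ++ r) v [])
    (hJ : J c (forget (u ++ v)) ≠ 0) :
    J c (forget u ++ [⟨l.map Mark.lab, .cap x, r.map Mark.lab⟩,
        ⟨l.map Mark.lab, .cup x, r.map Mark.lab⟩] ++ forget v)
      = (if x.col = c then rt / 2 else 1) * J c (forget (u ++ v)) := by
  rw [forget_append] at *
  unfold J at *
  simp only [amp_append, amp_two] at *
  by_cases hx : x.col = c
  · have hx' : (bar x).col = c := hx
    set k := rk c (l.map Mark.lab) with hk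
    obtain ⟨he, a, ha⟩ := G_amp c hu (by simp)
    obtain ⟨_, b, hb⟩ := G_amp c hv he
    have hs : bits c (l ++ [⟨x, true⟩, ⟨bar x, false⟩] ++ r)
        = bits c l ++ true :: false :: bits c r := by
      simp [hx, hx']
    rw [hs] at he ha hb
    rw [bits_nil, G_nil] at ha hb
    have h3 : Even ((bits c l).length + (bits c r).length) := by
      obtain ⟨z, hz⟩ := he
      simp at hz
      exact ⟨z - 1, by omega⟩
    have hP := G_P (bits c l) (bits c r) false true h3
    rw [bits_length, ← hk] at hP
    set g := G false (bits c l ++ true :: false :: bits c r) with hg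
    change op .P k * g = (-1 : ℂ) • (g * op .P k) at hP
    set U := amp c (forget u)
    set V := amp c (forget v)
    set one : St := fun _ => 1
    set z0 : Sp := fun _ => false
    rw [mul_one] at ha
    rw [one_mul] at hb
    have hU : ∀ ψ, U ψ = a • g (U ψ) := fun ψ => by
      have := congrArg (fun f : Op => f ψ) ha
      exact this
    have hV : ∀ ψ, V (g ψ) = b • V ψ := fun ψ => by
      have := congrArg (fun f : Op => f ψ) hb
      exact this
    have hPg : ∀ ψ, op .P k (g ψ) = (-1 : ℂ) • g (op .P k ψ) := fun ψ => by
      have := congrArg (fun f : Op => f ψ) hP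
      exact this
    have hcc : ∀ ψ, op .cup k (op .cap k ψ) = (rt / 2) • (ψ + op .P k ψ) := fun ψ => by
      have := congrArg (fun f : Op => f ψ) (cupcap k)
      exact this
    have e1 : V (U one) z0 = a * (b * V (U one) z0) := by
      have : V (U one) = a • b • V (U one) := by
        conv_lhs => rw [hU, map_smul, hV]
      exact congrFun this z0
    have e2 : V (op .P k (U one)) z0 = a * ((-1) * (b * V (op .P k (U one)) z0)) := by
      have : V (op .P k (U one)) = a • (-1 : ℂ) • b • V (op .P k (U one)) := by
        conv_lhs => rw [hU, map_smul, map_smul, hPg, map_smul, hV]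
      exact congrFun this z0
    have e3 : a * b = 1 := by
      have : V (U one) z0 * (a * b - 1) = 0 := by linear_combination - e1
      rcases mul_eq_zero.1 this with h | h
      · exact absurd h hJ
      · linear_combination h
    have e4 : V (op .P k (U one)) z0 = 0 := by
      linear_combination (1 / 2) * e2 - (1 / 2) * V (op .P k (U one)) z0 * e3
    have e5 : V (op .cup k (op .cap k (U one))) z0 = rt / 2 * V (U one) z0 := by
      rw [hcc, map_smul, map_add]
      show rt / 2 * (V (U one) z0 + V (op .P k (U one)) z0) = _
      rw [e4, add_zero]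
    simp only [amp1, act, hx, if_true, one_smul]
    exact e5
  · simp [amp1, act, hx]

/-- The invariant along a movie of births and fusions. -/
theorem J_grows (c : C) {D D' : Diagram (Ori C)} {n : C → ℤ} (h : Grows D D' n)
    (hJ : J c D ≠ 0) : J c D' = rt ^ (n c) * J c D := by
  induction h with
  | refl _ => simp
  | isotopy h h' ih => rw [← J_isotopic c h', ih]
  | birth u v l r x h hu hv ih =>
    rw [J_birth, ih, Pi.add_apply]
    by_cases hx : x.col = c
    · subst hx
      rw [if_pos rfl, Pi.single_eq_same, zpow_add₀ rt_ne, zpow_one]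
      ring
    · rw [if_neg hx, Pi.single_eq_of_ne (fun h => hx h.symm), add_zero, one_mul]
  | fusion u v l r x h hu hv ih =>
    have h1 := ih
    have h2 : J c (forget (u ++ v)) ≠ 0 := by
      rw [h1]
      exact mul_ne_zero (zpow_ne_zero _ rt_ne) hJ
    rw [J_fusion c u v l r x hu hv h2, h1, Pi.sub_apply]
    by_cases hx : x.col = c
    · subst hx
      have h3 : rt / 2 = rt⁻¹ := by
        have := rt_sq
        have h4 := rt_ne
        field_simp
        exact this
      rw [if_pos rfl, Pi.single_eq_same, zpow_sub₀ rt_ne, zpow_one, h3]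
      field_simp
    · rw [if_neg hx, Pi.single_eq_of_ne (fun h => hx h.symm), sub_zero, one_mul]

end Pool.Agent.Helper46.FA
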