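import Pool.Agent.Helper46.FA.Pretzel

/-!
A mutation between two pretzel links.
-/

namespace Pool.Agent.Helper46.FA

set_option linter.unusedSimpArgs false
set_option linter.unusedSectionVars false

/-- A crossing without labels. -/
abbrev Xk (b : Bool) : Kind Unit := .cross () () b

theorem unit_list (l : List Unit) : l = List.replicate l.length () :=
  List.eq_replicate_of_mem (fun _ _ => rfl)

theorem unit_ext {l m : List Unit} (h : l.length = m.length) : l = m := by
  rw [unit_list l, unit_list m, h]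

theorem pc_eq (l : List Unit) (k : Kind Unit) (r : List Unit) (i j : ℕ) (hl : l.length = i)
    (hr : r.length = j) : (⟨l, k, r⟩ : Elem Unit) = pc i j k := by
  unfold pc
  rw [← hl, ← hr, ← unit_list, ← unit_list]

/-- Far pieces exchange, with the typing. -/
theorem far_goes {s t : List Unit} (g h : Kind Unit) (l m r : List Unit)
    (H : Goes s [⟨l ++ g.src ++ m, h, r⟩, ⟨l, g, m ++ h.tgt ++ r⟩] t) :
    Goes s [⟨l, g, m ++ h.src ++ r⟩, ⟨l ++ g.tgt ++ m, h, r⟩] t := by
  rw [goes_cons_iff, goes_cons_iff, goes_nil_iff] at *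
  obtain ⟨h1, h2, h3⟩ := H
  refine ⟨?_, ?_, ?_⟩
  · rw [h1]; simp [Elem.src]
  · simp [Elem.src, Elem.tgt]
  · rw [← h3]; simp [Elem.tgt]

theorem far_goes' {s t : List Unit} (g h : Kind Unit) (l m r : List Unit)
    (H : Goes s [⟨l, g, m ++ h.src ++ r⟩, ⟨l ++ g.tgt ++ m, h, r⟩] t) :
    Goes s [⟨l ++ g.src ++ m, h, r⟩, ⟨l, g, m ++ h.tgt ++ r⟩] t := by
  rw [goes_cons_iff, goes_cons_iff, goes_nil_iff] at *
  obtain ⟨h1, h2, h3⟩ := H
  refine ⟨?_, ?_, ?_⟩
  · rw [h1]; simp [Elem.src]
  · simp [Elem.src, Elem.tgt]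
  · rw [← h3]; simp [Elem.tgt]

/-- Isotopic, and the second diagram is closed. -/
def Iso (D D' : Diagram Unit) : Prop := Closed D → Isotopic D D' ∧ Closed D'

theorem Iso.refl (D : Diagram Unit) : Iso D D := fun h => ⟨Relation.EqvGen.refl D, h⟩

theorem Iso.trans {D E F : Diagram Unit} (h1 : Iso D E) (h2 : Iso E F) : Iso D F := fun h =>
  ⟨Relation.EqvGen.trans _ _ _ (h1 h).1 (h2 (h1 h).2).1, (h2 (h1 h).2).2⟩

theorem iso_far (h : Kind Unit) (b : Bool) (i m j : ℕ) (u v : Diagram Unit) :
    Iso (u ++ [pc (i + 2 + m) j h, pc i (m + h.tgt.length + j) (Xk b)] ++ v)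
      (u ++ [pc i (m + h.src.length + j) (Xk b), pc (i + 2 + m) j h] ++ v) := by
  intro hc
  have e1 : (⟨List.replicate i () ++ (Xk b).src ++ List.replicate m (), h,
      List.replicate j ()⟩ : Elem Unit) = pc (i + 2 + m) j h :=
    pc_eq _ _ _ _ _ (by simp [Kind.src]; omega) (by simp)
  have e2 : (⟨List.replicate i (), Xk b, List.replicate m () ++ h.tgt ++
      List.replicate j ()⟩ : Elem Unit) = pc i (m + h.tgt.length + j) (Xk b) :=
    pc_eq _ _ _ _ _ (by simp) (by simp; omega)
  have e3 : (⟨List.replicate i (), Xk b, List.replicate m () ++ h.src ++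
      List.replicate j ()⟩ : Elem Unit) = pc i (m + h.src.length + j) (Xk b) :=
    pc_eq _ _ _ _ _ (by simp) (by simp; omega)
  have e4 : (⟨List.replicate i () ++ (Xk b).tgt ++ List.replicate m (), h,
      List.replicate j ()⟩ : Elem Unit) = pc (i + 2 + m) j h :=
    pc_eq _ _ _ _ _ (by simp [Kind.tgt]; omega) (by simp)
  have L := Local.far (Xk b) h (List.replicate i ()) (List.replicate m ()) (List.replicate j ())
  rw [e1, e2, e3, e4] at L
  have hc' : Closed (u ++ [pc i (m + h.src.length + j) (Xk b), pc (i + 2 + m) j h] ++ v) := by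
    unfold Closed at *
    rw [goes_append_iff] at *
    obtain ⟨t, h1, h2⟩ := hc
    rw [goes_append_iff] at h1
    obtain ⟨s, h3, h4⟩ := h1
    refine ⟨t, goes_append_iff.2 ⟨s, h3, ?_⟩, h2⟩
    rw [← e1, ← e2] at h4
    have := far_goes _ _ _ _ _ h4
    rwa [e3, e4] at this
  exact ⟨Relation.EqvGen.symm _ _ (Relation.EqvGen.rel _ _ (Step.mk u v L hc' hc)), hc'⟩

theorem iso_far' (h : Kind Unit) (b : Bool) (i m j : ℕ) (u v : Diagram Unit) :
    Iso (u ++ [pc i (m + h.src.length + j) (Xk b), pc (i + 2 + m) j h] ++ v)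
      (u ++ [pc (i + 2 + m) j h, pc i (m + h.tgt.length + j) (Xk b)] ++ v) := by
  intro hc
  have e1 : (⟨List.replicate i () ++ (Xk b).src ++ List.replicate m (), h,
      List.replicate j ()⟩ : Elem Unit) = pc (i + 2 + m) j h :=
    pc_eq _ _ _ _ _ (by simp [Kind.src]; omega) (by simp)
  have e2 : (⟨List.replicate i (), Xk b, List.replicate m () ++ h.tgt ++
      List.replicate j ()⟩ : Elem Unit) = pc i (m + h.tgt.length + j) (Xk b) :=
    pc_eq _ _ _ _ _ (by simp) (by simp; omega)
  have e3 : (⟨List.replicate i (), Xk b, List.replicate m () ++ h.src ++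
      List.replicate j ()⟩ : Elem Unit) = pc i (m + h.src.length + j) (Xk b) :=
    pc_eq _ _ _ _ _ (by simp) (by simp; omega)
  have e4 : (⟨List.replicate i () ++ (Xk b).tgt ++ List.replicate m (), h,
      List.replicate j ()⟩ : Elem Unit) = pc (i + 2 + m) j h :=
    pc_eq _ _ _ _ _ (by simp [Kind.tgt]; omega) (by simp)
  have L := Local.far (Xk b) h (List.replicate i ()) (List.replicate m ()) (List.replicate j ())
  rw [e1, e2, e3, e4] at L
  have hc' : Closed (u ++ [pc (i + 2 + m) j h, pc i (m + h.tgt.length + j) (Xk b)] ++ v) := by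
    unfold Closed at *
    rw [goes_append_iff] at *
    obtain ⟨t, h1, h2⟩ := hc
    rw [goes_append_iff] at h1
    obtain ⟨s, h3, h4⟩ := h1
    refine ⟨t, goes_append_iff.2 ⟨s, h3, ?_⟩, h2⟩
    rw [← e3, ← e4] at h4
    have := far_goes' _ _ _ _ _ h4
    rwa [e1, e2] at this
  exact ⟨Relation.EqvGen.rel _ _ (Step.mk u v L hc hc'), hc'⟩

/-- Move one piece up through a column on its left. -/
theorem iso_block (h : Kind Unit) (b : Bool) (i m j n : ℕ) (u v : Diagram Unit) :
    Iso (u ++ (pc (i + 2 + m) j h :: (List.replicate n (pc i (m + h.tgt.length + j) (Xk b)) ++ v)))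
      (u ++ (List.replicate n (pc i (m + h.src.length + j) (Xk b)) ++
        (pc (i + 2 + m) j h :: v))) := by
  induction n generalizing u with
  | zero => exact Iso.refl _
  | succ n ih =>
    have h1 := iso_far h b i m j u (List.replicate n (pc i (m + h.tgt.length + j) (Xk b)) ++ v)
    have h2 := ih (u ++ [pc i (m + h.src.length + j) (Xk b)])
    rw [List.replicate_succ, List.replicate_succ]
    simp only [List.append_assoc, List.cons_append, List.nil_append] at h1 h2 ⊢
    exact h1.trans h2

/-- Move one piece down through a column on its left. -/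
theorem iso_block' (h : Kind Unit) (b : Bool) (i m j n : ℕ) (u v : Diagram Unit) :
    Iso (u ++ (List.replicate n (pc i (m + h.src.length + j) (Xk b)) ++
        (pc (i + 2 + m) j h :: v)))
      (u ++ (pc (i + 2 + m) j h ::
        (List.replicate n (pc i (m + h.tgt.length + j) (Xk b)) ++ v))) := by
  induction n generalizing u with
  | zero => exact Iso.refl _
  | succ n ih =>
    have h1 := iso_far' h b i m j u (List.replicate n (pc i (m + h.tgt.length + j) (Xk b)) ++ v)
    have h2 := ih (u ++ [pc i (m + h.src.length + j) (Xk b)])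
    rw [List.replicate_succ, List.replicate_succ]
    simp only [List.append_assoc, List.cons_append, List.nil_append] at h1 h2 ⊢
    exact h2.trans h1

/-- Exchange two columns. -/
theorem iso_columns (b b' : Bool) (i m j n k : ℕ) (u v : Diagram Unit) :
    Iso (u ++ (List.replicate k (pc (i + 2 + m) j (Xk b')) ++
        (List.replicate n (pc i (m + 2 + j) (Xk b)) ++ v)))
      (u ++ (List.replicate n (pc i (m + 2 + j) (Xk b)) ++
        (List.replicate k (pc (i + 2 + m) j (Xk b')) ++ v))) := by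
  induction k generalizing u with
  | zero => exact Iso.refl _
  | succ k ih =>
    have h1 := ih (u ++ [pc (i + 2 + m) j (Xk b')])
    have h2 := iso_block (Xk b') b i m j n u (List.replicate k (pc (i + 2 + m) j (Xk b')) ++ v)
    rw [List.replicate_succ]
    simp only [List.append_assoc, List.cons_append, List.nil_append] at h1 h2 ⊢
    exact h1.trans h2

/-- Exchange two columns. -/
theorem iso_columns' (b b' : Bool) (i m j n k : ℕ) (u v : Diagram Unit) :
    Iso (u ++ (List.replicate n (pc i (m + 2 + j) (Xk b)) ++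
        (List.replicate k (pc (i + 2 + m) j (Xk b')) ++ v)))
      (u ++ (List.replicate k (pc (i + 2 + m) j (Xk b')) ++
        (List.replicate n (pc i (m + 2 + j) (Xk b)) ++ v))) := by
  induction k generalizing u with
  | zero => exact Iso.refl _
  | succ k ih =>
    have h1 := ih (u ++ [pc (i + 2 + m) j (Xk b')])
    have h2 := iso_block' (Xk b') b i m j n u (List.replicate k (pc (i + 2 + m) j (Xk b')) ++ v)
    rw [List.replicate_succ]
    simp only [List.append_assoc, List.cons_append, List.nil_append] at h1 h2 ⊢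
    exact h2.trans h1

theorem goes_rep (i j n : ℕ) (b : Bool) (s : List Unit) (hs : s.length = i + 2 + j) :
    Goes s (List.replicate n (pc i j (Xk b))) s := by
  induction n with
  | zero => exact Goes.nil _
  | succ n ih =>
    rw [List.replicate_succ]
    refine goes_cons' (unit_ext ?_) ?_
    · simp [Elem.src, Kind.src, pc, hs]; omega
    · have : (pc i j (Xk b)).tgt = s := unit_ext (by simp [Elem.tgt, Kind.tgt, pc, hs]; omega)
      rw [this]; exact ih

/-- The word with four columns. -/
def word4 (b1 b2 b3 b4 : Bool) (n1 n2 n3 n4 : ℕ) : Diagram Unit :=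
  [pc 0 0 (.cup ()), pc 1 1 (.cup ()), pc 3 1 (.cup ()), pc 5 1 (.cup ())] ++
  (List.replicate n1 (pc 0 6 (Xk b1)) ++
  (List.replicate n2 (pc 2 4 (Xk b2)) ++
  (List.replicate n3 (pc 4 2 (Xk b3)) ++
  (List.replicate n4 (pc 6 0 (Xk b4)) ++
  [pc 5 1 (.cap ()), pc 3 1 (.cap ()), pc 1 1 (.cap ()), pc 0 0 (.cap ())]))))

theorem closed_word4 (b1 b2 b3 b4 : Bool) (n1 n2 n3 n4 : ℕ) :
    Closed (word4 b1 b2 b3 b4 n1 n2 n3 n4) := by
  unfold Closed word4
  refine goes_cons' (unit_ext rfl) (goes_cons' (unit_ext rfl) (goes_cons' (unit_ext rfl)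
    (goes_cons' (unit_ext rfl) ?_)))
  change Goes _ (List.replicate n1 (pc 0 6 (Xk b1)) ++ _) _
  refine goes_append (goes_rep _ _ _ _ (pc 5 1 (.cup ())).tgt rfl)
    (goes_append (goes_rep _ _ _ _ (pc 5 1 (.cup ())).tgt rfl)
    (goes_append (goes_rep _ _ _ _ (pc 5 1 (.cup ())).tgt rfl)
    (goes_append (goes_rep _ _ _ _ (pc 5 1 (.cup ())).tgt rfl) ?_)))
  refine goes_cons' (unit_ext rfl) (goes_cons' (unit_ext rfl) (goes_cons' (unit_ext rfl)
    (goes_cons' (unit_ext rfl) (goes_nil_iff.2 rfl))))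

/-- The intermediate word: the last cup is read after the first two columns. -/
def mid (b1 b2 : Bool) (n1 n2 : ℕ) (w : Diagram Unit) : Diagram Unit :=
  [pc 0 0 (.cup ()), pc 1 1 (.cup ()), pc 3 1 (.cup ())] ++
  (List.replicate n1 (pc 0 4 (Xk b1)) ++
  (List.replicate n2 (pc 2 2 (Xk b2)) ++
  (pc 5 1 (.cup ()) :: w)))

theorem iso_mid (b1 b2 : Bool) (n1 n2 : ℕ) (w : Diagram Unit) :
    Iso ([pc 0 0 (.cup ()), pc 1 1 (.cup ()), pc 3 1 (.cup ()), pc 5 1 (.cup ())] ++
      (List.replicate n1 (pc 0 6 (Xk b1)) ++ (List.replicate n2 (pc 2 4 (Xk b2)) ++ w)))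
      (mid b1 b2 n1 n2 w) := by
  have h1 := iso_block (.cup ()) b1 0 3 1 n1
    [pc 0 0 (.cup ()), pc 1 1 (.cup ()), pc 3 1 (.cup ())]
    (List.replicate n2 (pc 2 4 (Xk b2)) ++ w)
  have h2 := iso_block (.cup ()) b2 2 1 1 n2
    ([pc 0 0 (.cup ()), pc 1 1 (.cup ()), pc 3 1 (.cup ())] ++
      List.replicate n1 (pc 0 4 (Xk b1))) w
  simp only [List.append_assoc] at h2
  exact h1.trans h2

theorem mutant_pretzel (q p : ℕ) (hq : 0 < q) (hp : 0 < p) :
    Mutant (symmetric [(q : ℤ), p]) (pretzel [(q : ℤ), p, -q, -p]) := by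
  rw [symmetric_four q p hq hp, pretzel_four q p hq hp]
  set caps : Diagram Unit :=
    [pc 5 1 (.cap ()), pc 3 1 (.cap ()), pc 1 1 (.cap ()), pc 0 0 (.cap ())] with hcaps
  -- from the symmetric link to the intermediate word
  have a1 := iso_mid true true q p (List.replicate p (pc 4 2 (Xk false)) ++
    (List.replicate q (pc 6 0 (Xk false)) ++ caps))
  obtain ⟨i1, c1⟩ := a1 (closed_word4 true true false false q p p q)
  -- from the other pretzel link to the intermediate word
  have a2 := iso_mid true true q p (List.replicate q (pc 4 2 (Xk false)) ++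
    (List.replicate p (pc 6 0 (Xk false)) ++ caps))
  have a3 := iso_columns' false false 4 0 0 q p
    ([pc 0 0 (.cup ()), pc 1 1 (.cup ()), pc 3 1 (.cup ())] ++
    (List.replicate q (pc 0 4 (Xk true)) ++ (List.replicate p (pc 2 2 (Xk true)) ++
    [pc 5 1 (.cup ())]))) caps
  have a4 : Iso (mid true true q p (List.replicate q (pc 4 2 (Xk false)) ++
    (List.replicate p (pc 6 0 (Xk false)) ++ caps)))
    (mid true true q p (List.replicate p (pc 6 0 (Xk false)) ++
    (List.replicate q (pc 4 2 (Xk false)) ++ caps))) := by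
    simp only [List.append_assoc, List.cons_append, List.nil_append] at a3
    exact a3
  obtain ⟨i2, c2⟩ := (a2.trans a4) (closed_word4 true true false false q p q p)
  -- the mutation
  set T : Diagram Unit := pc 1 1 (.cup ()) :: (List.replicate p (pc 0 2 (Xk false)) ++
    (List.replicate q (pc 2 0 (Xk false)) ++ [pc 1 1 (.cap ())])) with hT
  set u : Diagram Unit := [pc 0 0 (.cup ()), pc 1 1 (.cup ()), pc 3 1 (.cup ())] ++
    (List.replicate q (pc 0 4 (Xk true)) ++ List.replicate p (pc 2 2 (Xk true))) with hu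
  set v : Diagram Unit := [pc 3 1 (.cap ()), pc 1 1 (.cap ()), pc 0 0 (.cap ())] with hv
  have hGT : Goes [(), ()] T [(), ()] := by
    rw [hT]
    refine goes_cons' (unit_ext rfl) (goes_append (goes_rep _ _ _ _ (pc 1 1 (.cup ())).tgt rfl)
      (goes_append (goes_rep _ _ _ _ (pc 1 1 (.cup ())).tgt rfl) (goes_cons' (unit_ext rfl) (goes_nil_iff.2 rfl))))
  have e1 : mid true true q p (List.replicate p (pc 4 2 (Xk false)) ++
      (List.replicate q (pc 6 0 (Xk false)) ++ caps))
      = u ++ embed (List.replicate 4 ()) [] T ++ v := by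
    simp [mid, embed, hT, hu, hv, hcaps, pc]
  have e2 : mid true true q p (List.replicate p (pc 6 0 (Xk false)) ++
      (List.replicate q (pc 4 2 (Xk false)) ++ caps))
      = u ++ embed (List.replicate 4 ()) [] (turnV T) ++ v := by
    simp [mid, embed, hT, hu, hv, hcaps, pc, turnV]
  rw [e1] at i1 c1
  rw [e2] at i2 c2
  refine Relation.ReflTransGen.trans (Relation.ReflTransGen.single (Or.inl i1)) ?_
  refine Relation.ReflTransGen.trans (Relation.ReflTransGen.single
    (Or.inr (Mutation.mk u v T (turnV T) (List.replicate 4 ()) [] hGT (Or.inl rfl) c1 c2))) ?_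
  exact Relation.ReflTransGen.single (Or.inl (Relation.EqvGen.symm _ _ i2))

end Pool.Agent.Helper46.FA
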