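import Mathlib

/-!
Operators on functions of a one sided sequence of spins.  They satisfy the
relations of the Temperley-Lieb category at loop value the square root of two,
together with a braiding; they are the tool for the invariant of this folder.
-/

namespace Pool.Agent.Helper46.FA

set_option linter.unusedSimpArgs false

/-- A one sided sequence of spins. -/
abbrev Sp := ℕ → Bool

/-- A state is a complex function of the spins. -/
abbrev St := Sp → ℂ

/-- Put a spin in front. -/
def cons (a : Bool) (s : Sp) : Sp := fun n => Nat.casesOn n a s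

/-- Forget the first spin. -/
def tl (s : Sp) : Sp := fun n => s (n + 1)

@[simp] theorem cons_zero (a : Bool) (s : Sp) : cons a s 0 = a := rfl

@[simp] theorem cons_succ (a : Bool) (s : Sp) (n : ℕ) : cons a s (n + 1) = s n := rfl

@[simp] theorem cons_one (a : Bool) (s : Sp) : cons a s 1 = s 0 := rfl

@[simp] theorem tl_cons (a : Bool) (s : Sp) : tl (cons a s) = s := rfl

@[simp] theorem tl_apply (s : Sp) (n : ℕ) : tl s n = s (n + 1) := rfl

@[simp] theorem cons_tl (s : Sp) : cons (s 0) (tl s) = s := by
  funext n; cases n <;> rfl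

theorem eq_cons (s : Sp) : ∃ a t, s = cons a t := ⟨s 0, tl s, (cons_tl s).symm⟩

/-- The square root of two. -/
noncomputable def rt : ℂ := ((Real.sqrt 2 : ℝ) : ℂ)

theorem rt_sq : rt ^ 2 = 2 := by
  unfold rt
  rw [← Complex.ofReal_pow, Real.sq_sqrt (by norm_num)]
  norm_num

theorem rt_ne : rt ≠ 0 := by
  intro h
  have := rt_sq
  rw [h] at this
  norm_num at this

/-- Operators on states. -/
abbrev Op := Module.End ℂ St

/-- Let an operator act on the spins after the first one. -/
def skip : Op →ₐ[ℂ] Op where
  toFun f :=
    { toFun := fun ψ s => f (fun t => ψ (cons (s 0) t)) (tl s)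
      map_add' := by
        intro ψ φ
        funext s
        have : (fun t => (ψ + φ) (cons (s 0) t))
            = (fun t => ψ (cons (s 0) t)) + (fun t => φ (cons (s 0) t)) := rfl
        rw [this, map_add]
        rfl
      map_smul' := by
        intro a ψ
        funext s
        have : (fun t => (a • ψ) (cons (s 0) t)) = a • (fun t => ψ (cons (s 0) t)) := rfl
        rw [this, map_smul]
        rfl }
  map_one' := by
    ext ψ s
    show ψ (cons (s 0) (tl s)) = ψ s
    rw [cons_tl]
  map_mul' := by
    intro f g
    rfl
  map_zero' := by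
    rfl
  map_add' := by
    intro f g
    rfl
  commutes' := by
    intro a
    ext ψ s
    show a • ψ (cons (s 0) (tl s)) = a • ψ s
    rw [cons_tl]

theorem skip_apply (f : Op) (ψ : St) (s : Sp) :
    skip f ψ s = f (fun t => ψ (cons (s 0) t)) (tl s) := rfl

/-- The elementary operators. -/
inductive Gen where
  | cup : Gen
  | cap : Gen
  | X : Bool → Gen
  | P : Gen
deriving DecidableEq

/-- Number of strands entering. -/
def Gen.inn : Gen → ℕ
  | .cup => 0
  | _ => 2

/-- Number of strands leaving. -/
def Gen.out : Gen → ℕ
  | .cap => 0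
  | _ => 2

/-- The weight of a crossing. -/
noncomputable def ew (b : Bool) : ℂ := if b then -Complex.I else Complex.I

theorem ew_sq (b : Bool) : ew b ^ 2 = -1 := by
  cases b <;> simp [ew, Complex.I_sq]

theorem ew_mul (b : Bool) : ew b * ew (!b) = 1 := by
  cases b <;> simp [ew, Complex.I_mul_I]

/-- The elementary operators acting on the first spin. -/
noncomputable def op0 : Gen → Op
  | .cup =>
    { toFun := fun ψ s => ψ (tl s)
      map_add' := fun _ _ => rfl
      map_smul' := fun _ _ => rfl }
  | .cap =>
    { toFun := fun ψ s => rt / 2 * (ψ (cons true s) + ψ (cons false s))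
      map_add' := by intro ψ φ; funext s; simp only [Pi.add_apply]; ring
      map_smul' := by
        intro a ψ; funext s; simp only [Pi.smul_apply, smul_eq_mul, RingHom.id_apply]; ring }
  | .X b =>
    { toFun := fun ψ s => (1 + ew b) / 2 * (ψ s + ew b * ψ (cons (!(s 0)) (tl s)))
      map_add' := by intro ψ φ; funext s; simp only [Pi.add_apply]; ring
      map_smul' := by
        intro a ψ; funext s; simp only [Pi.smul_apply, smul_eq_mul, RingHom.id_apply]; ring }
  | .P =>
    { toFun := fun ψ s => ψ (cons (!(s 0)) (tl s))
      map_add' := fun _ _ => rfl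
      map_smul' := fun _ _ => rfl }

/-- The elementary operators acting on the bond of the first two spins. -/
noncomputable def op1 : Gen → Op
  | .cup =>
    { toFun := fun ψ s => (if s 0 = s 1 then rt else 0) * ψ (tl s)
      map_add' := by intro ψ φ; funext s; simp only [Pi.add_apply]; ring
      map_smul' := by
        intro a ψ; funext s; simp only [Pi.smul_apply, smul_eq_mul, RingHom.id_apply]; ring }
  | .cap =>
    { toFun := fun ψ s => ψ (cons (s 0) s)
      map_add' := fun _ _ => rfl
      map_smul' := fun _ _ => rfl }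
  | .X b =>
    { toFun := fun ψ s => (if s 0 = s 1 then ew b else 1) * ψ s
      map_add' := by intro ψ φ; funext s; simp only [Pi.add_apply]; ring
      map_smul' := by
        intro a ψ; funext s; simp only [Pi.smul_apply, smul_eq_mul, RingHom.id_apply]; ring }
  | .P =>
    { toFun := fun ψ s => (if s 0 = s 1 then 1 else -1) * ψ s
      map_add' := by intro ψ φ; funext s; simp only [Pi.add_apply]; ring
      map_smul' := by
        intro a ψ; funext s; simp only [Pi.smul_apply, smul_eq_mul, RingHom.id_apply]; ring }

/-- The elementary operator at a given strand. -/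
noncomputable def op (g : Gen) : ℕ → Op
  | 0 => op0 g
  | 1 => op1 g
  | k + 2 => skip (op g k)

@[simp] theorem op_zero (g : Gen) : op g 0 = op0 g := rfl
@[simp] theorem op_one (g : Gen) : op g 1 = op1 g := rfl
@[simp] theorem op_add_two (g : Gen) (k : ℕ) : op g (k + 2) = skip (op g k) := rfl

@[simp] theorem cup0_apply (ψ : St) (s : Sp) : op0 .cup ψ s = ψ (tl s) := rfl
@[simp] theorem cap0_apply (ψ : St) (s : Sp) :
    op0 .cap ψ s = rt / 2 * (ψ (cons true s) + ψ (cons false s)) := rfl
@[simp] theorem X0_apply (b : Bool) (ψ : St) (s : Sp) :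
    op0 (.X b) ψ s = (1 + ew b) / 2 * (ψ s + ew b * ψ (cons (!(s 0)) (tl s))) := rfl
@[simp] theorem P0_apply (ψ : St) (s : Sp) : op0 .P ψ s = ψ (cons (!(s 0)) (tl s)) := rfl
@[simp] theorem cup1_apply (ψ : St) (s : Sp) :
    op1 .cup ψ s = (if s 0 = s 1 then rt else 0) * ψ (tl s) := rfl
@[simp] theorem cap1_apply (ψ : St) (s : Sp) : op1 .cap ψ s = ψ (cons (s 0) s) := rfl
@[simp] theorem X1_apply (b : Bool) (ψ : St) (s : Sp) :
    op1 (.X b) ψ s = (if s 0 = s 1 then ew b else 1) * ψ s := rfl
@[simp] theorem P1_apply (ψ : St) (s : Sp) :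
    op1 .P ψ s = (if s 0 = s 1 then 1 else -1) * ψ s := rfl

/-! ### Relations -/

theorem zig1 (k : ℕ) : op .cap (k + 1) * op .cup k = 1 := by
  induction k using Nat.twoStepInduction with
  | zero =>
    ext ψ s
    show op1 .cap (op0 .cup ψ) s = ψ s
    simp
  | one =>
    ext ψ s
    show skip (op0 .cap) (op1 .cup ψ) s = ψ s
    obtain ⟨a, t, rfl⟩ := eq_cons s
    simp only [skip_apply, cap0_apply, cup1_apply, cons_zero, tl_cons, cons_one]
    have := rt_sq
    cases a <;> simp <;> linear_combination (ψ _) / 2 * this
  | more k ih _ =>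
    rw [op_add_two, op_add_two, ← map_mul, ih, map_one]

theorem zig2 (k : ℕ) : op .cap k * op .cup (k + 1) = 1 := by
  induction k using Nat.twoStepInduction with
  | zero =>
    ext ψ s
    show op0 .cap (op1 .cup ψ) s = ψ s
    obtain ⟨a, t, rfl⟩ := eq_cons s
    have := rt_sq
    cases a <;> simp <;> linear_combination (ψ _) / 2 * this
  | one =>
    ext ψ s
    show op1 .cap (skip (op0 .cup) ψ) s = ψ s
    simp [skip_apply]
  | more k ih _ =>
    rw [op_add_two, show k + 2 + 1 = (k + 1) + 2 from rfl, op_add_two, ← map_mul, ih, map_one]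

theorem capX (k : ℕ) (b : Bool) : op .cap k * op (.X b) k = ew b • op .cap k := by
  induction k using Nat.twoStepInduction with
  | zero =>
    ext ψ s
    show op0 .cap (op0 (.X b) ψ) s = ew b • op0 .cap ψ s
    have := ew_sq b
    simp
    linear_combination (rt / 4 * (ψ (cons true s) + ψ (cons false s))) * this
  | one =>
    ext ψ s
    show op1 .cap (op1 (.X b) ψ) s = ew b • op1 .cap ψ s
    simp
  | more k ih _ =>
    rw [op_add_two, op_add_two, ← map_mul, ih, map_smul]

theorem Xcup (k : ℕ) (b : Bool) : op (.X b) k * op .cup k = ew b • op .cup k := by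
  induction k using Nat.twoStepInduction with
  | zero =>
    ext ψ s
    show op0 (.X b) (op0 .cup ψ) s = ew b • op0 .cup ψ s
    have := ew_sq b
    simp
    linear_combination (1 / 2 * ψ (tl s)) * this
  | one =>
    ext ψ s
    show op1 (.X b) (op1 .cup ψ) s = ew b • op1 .cup ψ s
    simp
    split_ifs <;> simp
  | more k ih _ =>
    rw [op_add_two, op_add_two, ← map_mul, ih, map_smul]

theorem XX (k : ℕ) (b : Bool) : op (.X (!b)) k * op (.X b) k = 1 := by
  induction k using Nat.twoStepInduction with
  | zero =>
    ext ψ s
    show op0 (.X (!b)) (op0 (.X b) ψ) s = ψ s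
    have h1 : ew (!b) = - ew b := by cases b <;> simp [ew]
    have := ew_sq b
    simp [h1]
    linear_combination (1 / 4 * ((ew b) ^ 2 - 3) * ψ s) * this
  | one =>
    ext ψ s
    show op1 (.X (!b)) (op1 (.X b) ψ) s = ψ s
    have := ew_mul b
    simp
    split_ifs
    · linear_combination (ψ s) * this
    · simp
  | more k ih _ =>
    rw [op_add_two, op_add_two, ← map_mul, ih, map_one]

theorem ew_not (b : Bool) : ew (!b) = - ew b := by cases b <;> simp [ew]

theorem XXX (k : ℕ) (b : Bool) :
    op (.X b) k * (op (.X b) (k + 1) * op (.X b) k)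
      = op (.X b) (k + 1) * (op (.X b) k * op (.X b) (k + 1)) := by
  induction k using Nat.twoStepInduction with
  | zero =>
    ext ψ s
    show op0 (.X b) (op1 (.X b) (op0 (.X b) ψ)) s = op1 (.X b) (op0 (.X b) (op1 (.X b) ψ)) s
    have h := ew_sq b
    obtain ⟨a, t, rfl⟩ := eq_cons s
    obtain ⟨c, t, rfl⟩ := eq_cons t
    cases a <;> cases c <;> simp only [skip_apply, cup0_apply, cap0_apply, X0_apply, cup1_apply, cap1_apply, X1_apply,
      cons_zero, cons_one, tl_cons, tl_apply, Bool.not_true, Bool.not_false, reduceIte,
      Bool.true_eq_false, Bool.false_eq_true, ew_not, Pi.smul_apply, smul_eq_mul]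
    all_goals generalize ew b = e at *
    · linear_combination (e * (1 + e) / 4 * (ψ (cons false (cons false t))
        + ψ (cons true (cons false t)))) * h
    · linear_combination ((1 + e) / 4 * ((e ^ 2 + e - 1) * ψ (cons false (cons true t))
        + e * ψ (cons true (cons true t)))) * h
    · linear_combination ((1 + e) / 4 * ((e ^ 2 + e - 1) * ψ (cons true (cons false t))
        + e * ψ (cons false (cons false t)))) * h
    · linear_combination (e * (1 + e) / 4 * (ψ (cons true (cons true t))
        + ψ (cons false (cons true t)))) * h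
  | one =>
    ext ψ s
    show op1 (.X b) (skip (op0 (.X b)) (op1 (.X b) ψ)) s
      = skip (op0 (.X b)) (op1 (.X b) (skip (op0 (.X b)) ψ)) s
    have h := ew_sq b
    obtain ⟨a, t, rfl⟩ := eq_cons s
    obtain ⟨c, t, rfl⟩ := eq_cons t
    cases a <;> cases c <;> simp only [skip_apply, cup0_apply, cap0_apply, X0_apply, cup1_apply, cap1_apply, X1_apply,
      cons_zero, cons_one, tl_cons, tl_apply, Bool.not_true, Bool.not_false, reduceIte,
      Bool.true_eq_false, Bool.false_eq_true, ew_not, Pi.smul_apply, smul_eq_mul]
    all_goals generalize ew b = e at *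
    · linear_combination (-e * (1 + e) / 4 * (ψ (cons false (cons false t))
        + ψ (cons false (cons true t)))) * h
    · linear_combination (-(1 + e) / 4 * ((e ^ 2 + e - 1) * ψ (cons false (cons true t))
        + e * ψ (cons false (cons false t)))) * h
    · linear_combination (-(1 + e) / 4 * ((e ^ 2 + e - 1) * ψ (cons true (cons false t))
        + e * ψ (cons true (cons true t)))) * h
    · linear_combination (-e * (1 + e) / 4 * (ψ (cons true (cons true t))
        + ψ (cons true (cons false t)))) * h
  | more k ih _ =>
    rw [op_add_two, op_add_two, ← map_mul, ← map_mul, ih, map_mul, map_mul]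

/-- The square root of the imaginary unit with positive real part, or its inverse. -/
noncomputable def zt (b : Bool) : ℂ := (1 - ew b) * rt / 2

theorem zt_sq (b : Bool) : zt b ^ 2 = - ew b := by
  have h := ew_sq b
  have := rt_sq
  unfold zt
  linear_combination ((1 - ew b) ^ 2 / 4) * this + 1 / 2 * h

theorem zt_mul (b : Bool) : zt b * zt (!b) = 1 := by
  have h := ew_sq b
  have := rt_sq
  unfold zt
  rw [ew_not]
  linear_combination ((1 - ew b ^ 2) / 4) * this - 1 / 2 * h

theorem slideCap (k : ℕ) (b : Bool) :
    op .cap (k + 1) * op (.X b) k = (- zt b) • (op .cap k * op (.X (!b)) (k + 1)) := by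
  induction k using Nat.twoStepInduction with
  | zero =>
    ext ψ s
    show op1 .cap (op0 (.X b) ψ) s = (- zt b) • op0 .cap (op1 (.X (!b)) ψ) s
    have h := ew_sq b
    have h2 := rt_sq
    obtain ⟨a, t, rfl⟩ := eq_cons s
    cases a <;> simp only [skip_apply, cup0_apply, cap0_apply, X0_apply, cup1_apply, cap1_apply, X1_apply,
      cons_zero, cons_one, tl_cons, tl_apply, Bool.not_true, Bool.not_false, reduceIte,
      Bool.true_eq_false, Bool.false_eq_true, ew_not, Pi.smul_apply, smul_eq_mul]
    all_goals simp only [zt]
    all_goals generalize ew b = e at *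
    · linear_combination ((1 - e) / 4 * (ψ (cons true (cons false t)) - e * ψ (cons false (cons false t)))) * h2
        + (ψ (cons false (cons false t)) + ψ (cons true (cons false t))) / 2 * h
    · linear_combination ((1 - e) / 4 * (ψ (cons false (cons true t)) - e * ψ (cons true (cons true t)))) * h2
        + (ψ (cons true (cons true t)) + ψ (cons false (cons true t))) / 2 * h
  | one =>
    ext ψ s
    show skip (op0 .cap) (op1 (.X b) ψ) s
      = (- zt b) • op1 .cap (skip (op0 (.X (!b))) ψ) s
    have h := ew_sq b
    have h2 := rt_sq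
    obtain ⟨a, t, rfl⟩ := eq_cons s
    cases a <;> simp only [skip_apply, cup0_apply, cap0_apply, X0_apply, cup1_apply, cap1_apply, X1_apply,
      cons_zero, cons_one, tl_cons, tl_apply, Bool.not_true, Bool.not_false, reduceIte,
      Bool.true_eq_false, Bool.false_eq_true, ew_not, Pi.smul_apply, smul_eq_mul]
    all_goals simp only [zt]
    all_goals generalize ew b = e at *
    · linear_combination (rt / 2 * (ψ (cons false (cons true t)) + (ψ (cons false (cons false t)) - e * ψ (cons false (cons true t))) / 2)) * h
    · linear_combination (rt / 2 * (ψ (cons true (cons false t)) + (ψ (cons true (cons true t)) - e * ψ (cons true (cons false t))) / 2)) * h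
  | more k ih _ =>
    rw [op_add_two, op_add_two, op_add_two, op_add_two, ← map_mul, ih, map_smul, map_mul]

theorem slideCup (k : ℕ) (b : Bool) :
    op (.X b) k * op .cup (k + 1) = (- zt b) • (op (.X (!b)) (k + 1) * op .cup k) := by
  induction k using Nat.twoStepInduction with
  | zero =>
    ext ψ s
    show op0 (.X b) (op1 .cup ψ) s = (- zt b) • op1 (.X (!b)) (op0 .cup ψ) s
    have h := ew_sq b
    have h2 := rt_sq
    obtain ⟨a, t, rfl⟩ := eq_cons s
    obtain ⟨c, t, rfl⟩ := eq_cons t
    cases a <;> cases c <;> simp only [skip_apply, cup0_apply, cap0_apply, X0_apply, cup1_apply, cap1_apply, X1_apply,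
      cons_zero, cons_one, tl_cons, tl_apply, Bool.not_true, Bool.not_false, reduceIte,
      Bool.true_eq_false, Bool.false_eq_true, ew_not, Pi.smul_apply, smul_eq_mul]
    all_goals simp only [zt]
    all_goals generalize ew b = e at *
    · linear_combination (rt * ψ (cons false t) / 2) * h
    · linear_combination (rt * ψ (cons true t) / 2) * h
    · linear_combination (rt * ψ (cons false t) / 2) * h
    · linear_combination (rt * ψ (cons true t) / 2) * h
  | one =>
    ext ψ s
    show op1 (.X b) (skip (op0 .cup) ψ) s
      = (- zt b) • skip (op0 (.X (!b))) (op1 .cup ψ) s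
    have h := ew_sq b
    have h2 := rt_sq
    obtain ⟨a, t, rfl⟩ := eq_cons s
    obtain ⟨c, t, rfl⟩ := eq_cons t
    cases a <;> cases c <;> simp only [skip_apply, cup0_apply, cap0_apply, X0_apply, cup1_apply, cap1_apply, X1_apply,
      cons_zero, cons_one, tl_cons, tl_apply, Bool.not_true, Bool.not_false, reduceIte,
      Bool.true_eq_false, Bool.false_eq_true, ew_not, Pi.smul_apply, smul_eq_mul]
    all_goals simp only [zt]
    all_goals generalize ew b = e at *
    · linear_combination ((1 - e) ^ 2 / 4 * ψ (cons false t)) * h2 + ψ (cons false t) / 2 * h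
    · linear_combination (-e * (1 - e) ^ 2 / 4 * ψ (cons false t)) * h2 + ψ (cons false t) * (1 - e / 2) * h
    · linear_combination (-e * (1 - e) ^ 2 / 4 * ψ (cons true t)) * h2 + ψ (cons true t) * (1 - e / 2) * h
    · linear_combination ((1 - e) ^ 2 / 4 * ψ (cons true t)) * h2 + ψ (cons true t) / 2 * h
  | more k ih _ =>
    rw [op_add_two, op_add_two, op_add_two, op_add_two, ← map_mul, ih, map_smul, map_mul]

theorem loop (k : ℕ) : op .cap k * op .cup k = rt • (1 : Op) := by
  induction k using Nat.twoStepInduction with
  | zero =>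
    ext ψ s
    show op0 .cap (op0 .cup ψ) s = rt • ψ s
    simp only [cap0_apply, cup0_apply, tl_cons, smul_eq_mul]
    ring
  | one =>
    ext ψ s
    show op1 .cap (op1 .cup ψ) s = rt • ψ s
    simp only [cap1_apply, cup1_apply, tl_cons, cons_zero, cons_one, reduceIte, smul_eq_mul]
  | more k ih _ =>
    rw [op_add_two, op_add_two, ← map_mul, ih, map_smul, map_one]

theorem cupcap (k : ℕ) : op .cup k * op .cap k = (rt / 2) • (1 + op .P k) := by
  induction k using Nat.twoStepInduction with
  | zero =>
    ext ψ s
    show op0 .cup (op0 .cap ψ) s = (rt / 2) • (ψ s + op0 .P ψ s)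
    obtain ⟨a, t, rfl⟩ := eq_cons s
    cases a <;> simp only [cap0_apply, cup0_apply, P0_apply, tl_cons, smul_eq_mul, cons_zero,
      Bool.not_true, Bool.not_false]
    ring
  | one =>
    ext ψ s
    show op1 .cup (op1 .cap ψ) s = (rt / 2) • (ψ s + op1 .P ψ s)
    obtain ⟨a, t, rfl⟩ := eq_cons s
    obtain ⟨c, t, rfl⟩ := eq_cons t
    cases a <;> cases c <;> simp only [cap1_apply, cup1_apply, P1_apply, tl_cons, smul_eq_mul,
      cons_zero, cons_one, reduceIte, Bool.true_eq_false, Bool.false_eq_true]
    all_goals ring
  | more k ih _ =>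
    rw [op_add_two, op_add_two, op_add_two, ← map_mul, ih, map_smul, map_add, map_one]

theorem loc (h : Gen) (m : ℕ) (F G : St) (s : Sp) (hFG : ∀ t : Sp, t 0 = s 0 → F t = G t) :
    op h (m + 1) F s = op h (m + 1) G s := by
  cases m with
  | zero =>
    cases h with
    | cup =>
      show op1 .cup F s = op1 .cup G s
      simp only [cup1_apply]
      split_ifs with h1
      · rw [hFG (tl s) (by simp [h1])]
      · simp
    | cap =>
      show op1 .cap F s = op1 .cap G s
      simp only [cap1_apply]
      rw [hFG _ (by simp)]
    | X b =>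
      show op1 (.X b) F s = op1 (.X b) G s
      simp only [X1_apply]
      rw [hFG s rfl]
    | P =>
      show op1 .P F s = op1 .P G s
      simp only [P1_apply]
      rw [hFG s rfl]
  | succ m =>
    show skip (op h m) F s = skip (op h m) G s
    have : (fun t => F (cons (s 0) t)) = fun t => G (cons (s 0) t) := by
      funext t
      exact hFG _ (by simp)
    rw [skip_apply, skip_apply, this]

theorem far (h g : Gen) (m k : ℕ) :
    op h (k + g.out + m) * op g k = op g k * op h (k + g.inn + m) := by
  induction k using Nat.twoStepInduction with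
  | zero =>
    cases g with
    | cup =>
      ext ψ s
      rw [show 0 + Gen.cup.out + m = m + 2 by simp [Gen.out]; omega,
        show 0 + Gen.cup.inn + m = m by simp [Gen.inn]]
      rfl
    | cap =>
      ext ψ s
      rw [show 0 + Gen.cap.out + m = m by simp [Gen.out],
        show 0 + Gen.cap.inn + m = m + 2 by simp [Gen.inn]; omega]
      show op h m (op0 .cap ψ) s = op0 .cap (skip (op h m) ψ) s
      have : op0 .cap ψ = (rt / 2) • ((fun t => ψ (cons true t)) + (fun t => ψ (cons false t))) :=
        rfl
      rw [this, map_smul, map_add]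
      rfl
    | X b =>
      ext ψ s
      rw [show 0 + (Gen.X b).out + m = m + 2 by simp [Gen.out]; omega,
        show 0 + (Gen.X b).inn + m = m + 2 by simp [Gen.inn]; omega]
      show skip (op h m) (op0 (.X b) ψ) s = op0 (.X b) (skip (op h m) ψ) s
      rw [skip_apply]
      have : (fun t => op0 (.X b) ψ (cons (s 0) t)) = ((1 + ew b) / 2) •
          ((fun t => ψ (cons (s 0) t)) + (ew b) • (fun t => ψ (cons (!(s 0)) t))) := rfl
      rw [this, map_smul, map_add, map_smul]
      rfl
    | P =>
      ext ψ s
      rw [show 0 + Gen.P.out + m = m + 2 by simp [Gen.out]; omega,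
        show 0 + Gen.P.inn + m = m + 2 by simp [Gen.inn]; omega]
      rfl
  | one =>
    cases g with
    | cup =>
      ext ψ s
      rw [show 1 + Gen.cup.out + m = (m + 1) + 2 by simp [Gen.out]; omega,
        show 1 + Gen.cup.inn + m = m + 1 by simp [Gen.inn]; omega]
      show skip (op h (m + 1)) (op1 .cup ψ) s = op1 .cup (op h (m + 1) ψ) s
      rw [skip_apply, loc h m _ ((if s 0 = s 1 then rt else 0) • ψ), map_smul]
      · rfl
      · intro t ht
        show (if s 0 = t 0 then rt else 0) * ψ t = (if s 0 = s 1 then rt else 0) * ψ t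
        rw [ht]
        rfl
    | cap =>
      ext ψ s
      rw [show 1 + Gen.cap.out + m = m + 1 by simp [Gen.out]; omega,
        show 1 + Gen.cap.inn + m = (m + 1) + 2 by simp [Gen.inn]; omega]
      show op h (m + 1) (op1 .cap ψ) s = op h (m + 1) (fun t => ψ (cons (s 0) t)) s
      apply loc
      intro t ht
      show ψ (cons (t 0) t) = ψ (cons (s 0) t)
      rw [ht]
    | X b =>
      ext ψ s
      rw [show 1 + (Gen.X b).out + m = (m + 1) + 2 by simp [Gen.out]; omega,
        show 1 + (Gen.X b).inn + m = (m + 1) + 2 by simp [Gen.inn]; omega]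
      show skip (op h (m + 1)) (op1 (.X b) ψ) s = op1 (.X b) (skip (op h (m + 1)) ψ) s
      rw [skip_apply, loc h m _ ((if s 0 = s 1 then ew b else 1) • (fun t => ψ (cons (s 0) t))),
        map_smul]
      · rfl
      · intro t ht
        show (if s 0 = t 0 then ew b else 1) * ψ (cons (s 0) t)
          = (if s 0 = s 1 then ew b else 1) * ψ (cons (s 0) t)
        rw [ht]
        rfl
    | P =>
      ext ψ s
      rw [show 1 + Gen.P.out + m = (m + 1) + 2 by simp [Gen.out]; omega,
        show 1 + Gen.P.inn + m = (m + 1) + 2 by simp [Gen.inn]; omega]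
      show skip (op h (m + 1)) (op1 .P ψ) s = op1 .P (skip (op h (m + 1)) ψ) s
      rw [skip_apply, loc h m _ ((if s 0 = s 1 then 1 else -1 : ℂ) • (fun t => ψ (cons (s 0) t))),
        map_smul]
      · rfl
      · intro t ht
        show (if s 0 = t 0 then 1 else -1) * ψ (cons (s 0) t)
          = (if s 0 = s 1 then 1 else -1) * ψ (cons (s 0) t)
        rw [ht]
        rfl
  | more k ih _ =>
    rw [show k + 2 + g.out + m = (k + g.out + m) + 2 by omega,
      show k + 2 + g.inn + m = (k + g.inn + m) + 2 by omega, op_add_two, op_add_two, op_add_two,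
      ← map_mul, ih, map_mul]

end Pool.Agent.Helper46.FA
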