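import Pool.Agent.Helper46.FA.Inv

/-!
Pretzel links with four columns: labelled forms, the value of the invariant, and a
mutation.
-/

namespace Pool.Agent.Helper46.FA

set_option linter.unusedSimpArgs false
set_option linter.unusedSectionVars false

variable {L M : Type} [Lab L] [Lab M]

theorem goes_append {s m t : List L} {u v : Diagram L} (h1 : Goes s u m) (h2 : Goes m v t) :
    Goes s (u ++ v) t := by
  induction h1 with
  | nil s => exact h2
  | cons e h ih => exact Goes.cons e (ih h2)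

theorem goes_cons' {s t : List L} {e : Elem L} {w : Diagram L} (hs : s = e.src)
    (h : Goes e.tgt w t) : Goes s (e :: w) t := by
  subst hs; exact Goes.cons e h

theorem goes_nil_iff {s t : List L} : Goes s [] t ↔ s = t := by
  constructor
  · intro h; cases h; rfl
  · rintro rfl; exact Goes.nil s

theorem goes_cons_iff {s t : List L} {e : Elem L} {w : Diagram L} :
    Goes s (e :: w) t ↔ s = e.src ∧ Goes e.tgt w t := by
  constructor
  · intro h; cases h with
    | cons e h => exact ⟨rfl, h⟩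
  · rintro ⟨h1, h2⟩; exact goes_cons' h1 h2

theorem goes_append_iff {s t : List L} {u v : Diagram L} :
    Goes s (u ++ v) t ↔ ∃ m, Goes s u m ∧ Goes m v t := by
  induction u generalizing s with
  | nil => simp [goes_nil_iff]
  | cons e u ih =>
    rw [List.cons_append, goes_cons_iff, ih]
    constructor
    · rintro ⟨h1, m, h2, h3⟩
      exact ⟨m, goes_cons_iff.2 ⟨h1, h2⟩, h3⟩
    · rintro ⟨m, h1, h2⟩
      rw [goes_cons_iff] at h1
      exact ⟨h1.1, m, h1.2, h2⟩

/-- A labelled column of crossings. -/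
def col (l : List L) (x y : L) (r : List L) (b : Bool) : ℕ → Diagram L
  | 0 => []
  | n + 1 => ⟨l, .cross x y b, r⟩ :: col l y x r b n

/-- The labels after a number of crossings. -/
def swp (x y : L) : ℕ → List L
  | 0 => [x, y]
  | n + 1 => swp y x n

theorem col_goes (l r : List L) (b : Bool) (n : ℕ) (x y : L) :
    Goes (l ++ [x, y] ++ r) (col l x y r b n) (l ++ swp x y n ++ r) := by
  induction n generalizing x y with
  | zero => exact Goes.nil _
  | succ n ih => exact Goes.cons ⟨l, .cross x y b, r⟩ (ih y x)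

theorem swp_even {n : ℕ} (h : Even n) (x y : L) : swp x y n = [x, y] := by
  obtain ⟨k, rfl⟩ := h
  induction k with
  | zero => rfl
  | succ k ih =>
    rw [show k + 1 + (k + 1) = (k + k) + 1 + 1 by ring]
    exact ih

theorem swp_odd {n : ℕ} (h : Odd n) (x y : L) : swp x y n = [y, x] := by
  obtain ⟨k, rfl⟩ := h
  show swp y x (2 * k) = _
  exact swp_even ⟨k, by ring⟩ y x

/-! ### Reading labels off -/

theorem bare_cons {w : Diagram L} {e : Elem Unit} {W : Diagram Unit} (h : bare w = e :: W) :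
    ∃ f w', w = f :: w' ∧ f.map (fun _ => ()) = e ∧ bare w' = W := by
  cases w with
  | nil => simp [bare, relabel] at h
  | cons f w =>
    simp only [bare, relabel, List.map_cons, List.cons.injEq] at h
    exact ⟨f, w, rfl, h.1, h.2⟩

theorem peel_cup {l r t : List L} {w : Diagram L} {i j : ℕ} {W : Diagram Unit}
    (h : Goes (l ++ r) w t) (hb : bare w = pc i j (.cup ()) :: W) (hl : l.length = i) :
    ∃ x w', w = ⟨l, .cup x, r⟩ :: w' ∧ Goes (l ++ [x, bar x] ++ r) w' t ∧ bare w' = W := by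
  obtain ⟨⟨l', k, r'⟩, w', rfl, hf, hw⟩ := bare_cons hb
  rw [goes_cons_iff] at h
  obtain ⟨h1, h2⟩ := h
  simp only [Elem.map, pc, Elem.mk.injEq] at hf
  obtain ⟨hl', hk, hr'⟩ := hf
  have hlen : l'.length = i := by
    have := congrArg List.length hl'
    simpa using this
  cases k with
  | cup x =>
    have h3 : l ++ r = l' ++ r' := by
      rw [h1]; simp [Elem.src, Kind.src]
    obtain ⟨rfl, rfl⟩ := List.append_inj h3 (hl.trans hlen.symm)
    exact ⟨x, w', rfl, h2, hw⟩
  | cap x => simp [Kind.map] at hk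
  | cross x y b => simp [Kind.map] at hk

theorem peel_cap {l r t : List L} {x y : L} {w : Diagram L} {i j : ℕ} {W : Diagram Unit}
    (h : Goes (l ++ [x, y] ++ r) w t) (hb : bare w = pc i j (.cap ()) :: W) (hl : l.length = i) :
    y = bar x ∧ ∃ w', w = ⟨l, .cap x, r⟩ :: w' ∧ Goes (l ++ r) w' t ∧ bare w' = W := by
  obtain ⟨⟨l', k, r'⟩, w', rfl, hf, hw⟩ := bare_cons hb
  rw [goes_cons_iff] at h
  obtain ⟨h1, h2⟩ := h
  simp only [Elem.map, pc, Elem.mk.injEq] at hf
  obtain ⟨hl', hk, hr'⟩ := hf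
  have hlen : l'.length = i := by
    have := congrArg List.length hl'
    simpa using this
  cases k with
  | cup x => simp [Kind.map] at hk
  | cap z =>
    have h3 : l ++ ([x, y] ++ r) = l' ++ ([z, bar z] ++ r') := by
      rw [← List.append_assoc, h1]; simp [Elem.src, Kind.src]
    obtain ⟨rfl, h4⟩ := List.append_inj h3 (hl.trans hlen.symm)
    simp only [List.cons_append, List.nil_append, List.cons.injEq] at h4
    obtain ⟨rfl, rfl, rfl⟩ := h4
    refine ⟨rfl, w', rfl, ?_, hw⟩
    simpa [Elem.tgt, Kind.tgt] using h2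
  | cross x y b => simp [Kind.map] at hk

theorem peel_cross {l r t : List L} {x y : L} {w : Diagram L} {i j : ℕ} {b : Bool}
    {W : Diagram Unit}
    (h : Goes (l ++ [x, y] ++ r) w t) (hb : bare w = pc i j (.cross () () b) :: W)
    (hl : l.length = i) :
    ∃ w', w = ⟨l, .cross x y b, r⟩ :: w' ∧ Goes (l ++ [y, x] ++ r) w' t ∧ bare w' = W := by
  obtain ⟨⟨l', k, r'⟩, w', rfl, hf, hw⟩ := bare_cons hb
  rw [goes_cons_iff] at h
  obtain ⟨h1, h2⟩ := h
  simp only [Elem.map, pc, Elem.mk.injEq] at hf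
  obtain ⟨hl', hk, hr'⟩ := hf
  have hlen : l'.length = i := by
    have := congrArg List.length hl'
    simpa using this
  cases k with
  | cup x => simp [Kind.map] at hk
  | cap z => simp [Kind.map] at hk
  | cross z z' b' =>
    have h3 : l ++ ([x, y] ++ r) = l' ++ ([z, z'] ++ r') := by
      rw [← List.append_assoc, h1]; simp [Elem.src, Kind.src]
    obtain ⟨rfl, h4⟩ := List.append_inj h3 (hl.trans hlen.symm)
    simp only [List.cons_append, List.nil_append, List.cons.injEq] at h4
    obtain ⟨rfl, rfl, rfl⟩ := h4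
    simp only [Kind.map, Kind.cross.injEq, true_and] at hk
    subst hk
    exact ⟨w', rfl, h2, hw⟩

theorem peel_col {l r t : List L} {i j : ℕ} {b : Bool} {W : Diagram Unit} (hl : l.length = i)
    (n : ℕ) {x y : L} {w : Diagram L}
    (h : Goes (l ++ [x, y] ++ r) w t)
    (hb : bare w = List.replicate n (pc i j (.cross () () b)) ++ W) :
    ∃ w', w = col l x y r b n ++ w' ∧ Goes (l ++ swp x y n ++ r) w' t ∧ bare w' = W := by
  induction n generalizing x y w with
  | zero => exact ⟨w, rfl, h, by simpa using hb⟩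
  | succ n ih =>
    rw [List.replicate_succ, List.cons_append] at hb
    obtain ⟨w', rfl, h2, hw⟩ := peel_cross h hb hl
    obtain ⟨w'', rfl, h3, h4⟩ := ih h2 hw
    exact ⟨w'', rfl, h3, h4⟩

/-- The labelled form of the pretzel link with columns `q, p, -q, -p`. -/
def pz (q p : ℕ) (u v : L) : Diagram L :=
  [⟨[], .cup u, []⟩, ⟨[u], .cup v, [bar u]⟩, ⟨[u, v, bar v], .cup (bar v), [bar u]⟩,
    ⟨[u, v, bar v, bar v, v], .cup u, [bar u]⟩] ++
  (col [] u v [bar v, bar v, v, u, bar u, bar u] true q ++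
  (col [u, v] (bar v) (bar v) [v, u, bar u, bar u] true p ++
  (col [u, v, bar v, bar v] v u [bar u, bar u] false q ++
  (col [u, v, bar v, bar v, v, u] (bar u) (bar u) [] false p ++
  [⟨[u, v, bar v, bar v, v], .cap u, [bar u]⟩, ⟨[u, v, bar v], .cap (bar v), [bar u]⟩,
    ⟨[u], .cap v, [bar u]⟩, ⟨[], .cap u, []⟩]))))

theorem pretzel_four (q p : ℕ) (hq : 0 < q) (hp : 0 < p) :
    pretzel [(q : ℤ), p, -q, -p] =
  [pc 0 0 (.cup ()), pc 1 1 (.cup ()), pc 3 1 (.cup ()), pc 5 1 (.cup ())] ++
  (List.replicate q (pc 0 6 (.cross () () true)) ++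
  (List.replicate p (pc 2 4 (.cross () () true)) ++
  (List.replicate q (pc 4 2 (.cross () () false)) ++
  (List.replicate p (pc 6 0 (.cross () () false)) ++
  [pc 5 1 (.cap ()), pc 3 1 (.cap ()), pc 1 1 (.cap ()), pc 0 0 (.cap ())])))) := by
  have h1 : ¬ ((0 : ℤ) ≤ -q) := by omega
  have h2 : ¬ ((0 : ℤ) ≤ -p) := by omega
  have h3 : (0 : ℤ) ≤ q := by omega
  have h4 : (0 : ℤ) ≤ p := by omega
  simp [pretzel, columns, List.range_succ, h1, h2, h3, h4, hq.ne', hp.ne']

theorem symmetric_four (q p : ℕ) (hq : 0 < q) (hp : 0 < p) :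
    symmetric [(q : ℤ), p] =
  [pc 0 0 (.cup ()), pc 1 1 (.cup ()), pc 3 1 (.cup ()), pc 5 1 (.cup ())] ++
  (List.replicate q (pc 0 6 (.cross () () true)) ++
  (List.replicate p (pc 2 4 (.cross () () true)) ++
  (List.replicate p (pc 4 2 (.cross () () false)) ++
  (List.replicate q (pc 6 0 (.cross () () false)) ++
  [pc 5 1 (.cap ()), pc 3 1 (.cap ()), pc 1 1 (.cap ()), pc 0 0 (.cap ())])))) := by
  have h1 : ¬ ((0 : ℤ) ≤ -q) := by omega
  have h2 : ¬ ((0 : ℤ) ≤ -p) := by omega
  have h3 : (0 : ℤ) ≤ q := by omega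
  have h4 : (0 : ℤ) ≤ p := by omega
  simp [symmetric, pretzel, columns, List.range_succ, h1, h2, h3, h4, hq.ne', hp.ne']

/-- Every labelling of the pretzel link has the form `pz`. -/
theorem eq_pz (q p : ℕ) (hq : Even q) (hq0 : 0 < q) (hp : Odd p) {E : Diagram L}
    (hE : Closed E) (hb : bare E = pretzel [(q : ℤ), p, -q, -p]) : ∃ u v : L, E = pz q p u v := by
  rw [pretzel_four q p hq0 hp.pos] at hb
  obtain ⟨x1, w1, rfl, h1, hb⟩ := peel_cup (l := []) (r := []) hE hb rfl
  obtain ⟨x2, w2, rfl, h2, hb⟩ := peel_cup (l := [x1]) (r := [bar x1]) h1 hb rfl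
  obtain ⟨x3, w3, rfl, h3, hb⟩ := peel_cup (l := [x1, x2, bar x2]) (r := [bar x1]) h2 hb rfl
  obtain ⟨x4, w4, rfl, h4, hb⟩ :=
    peel_cup (l := [x1, x2, bar x2, x3, bar x3]) (r := [bar x1]) h3 hb rfl
  obtain ⟨w5, rfl, h5, hb⟩ := peel_col (l := []) (x := x1) (y := x2)
    (r := [bar x2, x3, bar x3, x4, bar x4, bar x1]) rfl q h4 hb
  rw [swp_even hq] at h5
  obtain ⟨w6, rfl, h6, hb⟩ := peel_col (l := [x1, x2]) (x := bar x2) (y := x3)
    (r := [bar x3, x4, bar x4, bar x1]) rfl p h5 hb
  rw [swp_odd hp] at h6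
  obtain ⟨w7, rfl, h7, hb⟩ := peel_col (l := [x1, x2, x3, bar x2]) (x := bar x3) (y := x4)
    (r := [bar x4, bar x1]) rfl q h6 hb
  rw [swp_even hq] at h7
  obtain ⟨w8, rfl, h8, hb⟩ := peel_col (l := [x1, x2, x3, bar x2, bar x3, x4]) (x := bar x4)
    (y := bar x1) (r := []) rfl p h7 hb
  rw [swp_odd hp] at h8
  obtain ⟨e1, w9, rfl, h9, hb⟩ := peel_cap (l := [x1, x2, x3, bar x2, bar x3]) (x := x4)
    (y := bar x1) (r := [bar x4]) h8 hb rfl
  obtain ⟨e2, w10, rfl, h10, hb⟩ := peel_cap (l := [x1, x2, x3]) (x := bar x2)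
    (y := bar x3) (r := [bar x4]) h9 hb rfl
  obtain ⟨e3, w11, rfl, h11, hb⟩ := peel_cap (l := [x1]) (x := x2)
    (y := x3) (r := [bar x4]) h10 hb rfl
  obtain ⟨e4, w12, rfl, h12, hb⟩ := peel_cap (l := []) (x := x1)
    (y := bar x4) (r := []) h11 hb rfl
  have hw : w12 = [] := by
    simpa [bare, relabel] using hb
  subst hw
  have e5 : x4 = x1 := by
    have := congrArg bar e1
    rw [bar_bar, bar_bar] at this
    exact this.symm
  subst e3
  subst e5
  refine ⟨x4, x2, ?_⟩
  simp only [pz, bar_bar]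
  rfl

theorem closed_pz (q p : ℕ) (hq : Even q) (hp : Odd p) (u v : L) : Closed (pz q p u v) := by
  unfold Closed pz
  refine goes_cons' rfl (goes_cons' rfl (goes_cons' rfl (goes_cons' ?_ ?_)))
  · simp [Elem.src, Elem.tgt, Kind.src, Kind.tgt, bar_bar]
  have c1 := col_goes (L := L) [] [bar v, bar v, v, u, bar u, bar u] true q u v
  rw [swp_even hq] at c1
  have c2 := col_goes (L := L) [u, v] [v, u, bar u, bar u] true p (bar v) (bar v)
  rw [swp_odd hp] at c2
  have c3 := col_goes (L := L) [u, v, bar v, bar v] [bar u, bar u] false q v u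
  rw [swp_even hq] at c3
  have c4 := col_goes (L := L) [u, v, bar v, bar v, v, u] [] false p (bar u) (bar u)
  rw [swp_odd hp] at c4
  simp only [List.nil_append, List.cons_append, List.append_nil, Elem.tgt, Kind.tgt] at *
  change Goes _ (col [] u v _ true q ++ _) _
  refine goes_append c1 (goes_append c2 (goes_append c3 (goes_append c4 ?_)))
  refine goes_cons' ?_ (goes_cons' ?_ (goes_cons' ?_ (goes_cons' ?_ ?_))) <;>
    simp [Elem.src, Elem.tgt, Kind.src, Kind.tgt, bar_bar, goes_nil_iff]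

theorem relabel_append (f : L → M) (u v : Diagram L) :
    relabel f (u ++ v) = relabel f u ++ relabel f v := by
  simp [relabel]

theorem relabel_col (f : L → M) (l r : List L) (b : Bool) (n : ℕ) (x y : L) :
    relabel f (col l x y r b n) = col (l.map f) (f x) (f y) (r.map f) b n := by
  induction n generalizing x y with
  | zero => rfl
  | succ n ih =>
    have := ih y x
    simp only [col, relabel, List.map_cons] at this ⊢
    rw [this]
    rfl

theorem relabel_pz (f : L → M) (hf : ∀ x, f (bar x) = bar (f x)) (q p : ℕ) (u v : L) :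
    relabel f (pz q p u v) = pz q p (f u) (f v) := by
  unfold pz
  simp only [relabel_append, relabel_col]
  simp [relabel, Elem.map, Kind.map, hf]

theorem colours_pz {C : Type} (q p : ℕ) (hq : Even q) (hp : Odd p) (u v : Ori C)
    (h : ComponentsColoured (pz q p u v)) : u.col ≠ v.col := by
  intro huv
  obtain ⟨f, hf⟩ := h (pz q p ⟨u, true⟩ ⟨v, false⟩) (closed_pz q p hq hp _ _)
    (relabel_pz Mark.lab (fun _ => rfl) q p _ _)
  have h1 := hf ⟨u, true⟩ (by simp [labels, pz, Elem.src, Elem.tgt, Kind.src, Kind.tgt])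
  have h2 := hf ⟨v, false⟩ (by simp [labels, pz, Elem.src, Elem.tgt, Kind.src, Kind.tgt])
  simp only at h1 h2
  rw [huv, ← h2] at h1
  exact Bool.noConfusion h1

/-! ### The value of the invariant -/

section value

variable {C : Type} [DecidableEq C]

theorem amp_col_none (c : C) (l r : List (Ori C)) (b : Bool) (n : ℕ) (x y : Ori C)
    (h : ¬ (x.col = c ∧ y.col = c)) : amp c (col l x y r b n) = 1 := by
  induction n generalizing x y with
  | zero => rfl
  | succ n ih =>
    rw [col, amp, ih y x (fun h' => h ⟨h'.2, h'.1⟩), one_mul]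
    simp [amp1, act, h]

theorem amp_col_same (c : C) (l r : List (Ori C)) (b : Bool) (n : ℕ) (x : Ori C)
    (h : x.col = c) : amp c (col l x x r b n) = (zt b • op (.X b) (rk c l)) ^ n := by
  induction n with
  | zero => rfl
  | succ n ih =>
    rw [col, amp, ih, pow_succ]
    simp [amp1, act, h, ph]

theorem X1_pow (b : Bool) (n : ℕ) :
    ((zt b • op (.X b) 1) ^ n) (fun _ => 1)
      = fun s => zt b ^ n * (if s 0 = s 1 then ew b ^ n else 1) := by
  induction n with
  | zero => funext s; simp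
  | succ n ih =>
    rw [pow_succ', Module.End.mul_apply, ih]
    funext s
    show zt b * ((if s 0 = s 1 then ew b else 1) * (zt b ^ n * (if s 0 = s 1 then ew b ^ n else 1)))
      = _
    split_ifs <;> ring

theorem J_pz (q p : ℕ) (u v : Ori C) (h : u.col ≠ v.col) :
    J v.col (pz q p u v) = zt true ^ p * (ew true ^ p + 1) := by
  have hv' : (bar v).col = v.col := rfl
  have hu' : (bar u).col ≠ v.col := h
  have e : amp v.col (pz q p u v) = op .cap 0 * (op .cap 2 * ((zt true • op (.X true) 1) ^ p *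
      (op .cup 2 * op .cup 0))) := by
    unfold pz
    rw [amp_append, amp_append, amp_append, amp_append, amp_append,
      amp_col_none v.col [] _ _ _ u v (fun h' => h h'.1),
      amp_col_same v.col [u, v] _ _ _ (bar v) rfl,
      amp_col_none v.col _ _ _ _ v u (fun h' => h h'.2),
      amp_col_none v.col _ _ _ _ (bar u) (bar u) (fun h' => h h'.1)]
    simp [amp, amp1, act, h, hv', hu', mul_assoc]
  unfold J
  rw [e]
  simp only [Module.End.mul_apply]
  have e1 : op .cup 2 (op .cup 0 (fun _ => 1)) = fun _ => 1 := rfl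
  rw [e1, X1_pow]
  show rt / 2 * (rt / 2 * ((zt true ^ p * (if true = true then ew true ^ p else 1))
      + (zt true ^ p * (if true = false then ew true ^ p else 1)))
    + rt / 2 * ((zt true ^ p * (if false = true then ew true ^ p else 1))
      + (zt true ^ p * (if false = false then ew true ^ p else 1)))) = _
  simp only [if_true, Bool.true_eq_false, Bool.false_eq_true, if_false]
  linear_combination (1 / 2 * zt true ^ p * (ew true ^ p + 1)) * rt_sq

theorem J_value (p : ℕ) (hp : p % 8 = 3 ∨ p % 8 = 5) :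
    zt true ^ p * (ew true ^ p + 1) = - rt := by
  have h1 : zt true ^ 2 = Complex.I := by rw [zt_sq]; simp [ew]
  have h2 : zt true ^ 8 = 1 := by
    rw [show 8 = 2 * 4 by norm_num, pow_mul, h1, Complex.I_pow_four]
  have h3 : ew true ^ 8 = 1 := by
    rw [show 8 = 2 * 4 by norm_num, pow_mul, ew_sq]; norm_num
  have hI := Complex.I_sq
  have hr := rt_sq
  obtain ⟨k, hk⟩ : ∃ k, p = 8 * k + p % 8 := ⟨p / 8, by omega⟩
  rw [hk, pow_add, pow_add, pow_mul, pow_mul, h2, h3, one_pow, one_mul, one_mul]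
  have h4 : zt true = (1 + Complex.I) * rt / 2 := by simp [zt, ew]
  have h5 : ew true = - Complex.I := by simp [ew]
  rcases hp with h | h
  · rw [h, pow_succ, h1, h4, h5]
    linear_combination (rt / 2 * (-Complex.I ^ 3 - Complex.I ^ 2 + Complex.I + 2)) * hI
  · rw [h, h5, show zt true ^ 5 = (zt true ^ 2) ^ 2 * zt true by ring, h1, h4]
    linear_combination (rt / 2 * (-Complex.I ^ 6 - Complex.I ^ 5 + Complex.I ^ 4
      + Complex.I ^ 3 - Complex.I ^ 2 + 2)) * hI

end value

/-- The components of the pretzel link do not bound disjoint discs. -/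
theorem not_bounds (q p : ℕ) (hq : Even q) (hq0 : 0 < q) (hp : p % 8 = 3 ∨ p % 8 = 5) :
    ¬ BoundsDisjointDiscs (pretzel [(q : ℤ), p, -q, -p]) := by
  rintro ⟨E, F, hE, hb, hc, h1, h2⟩
  have hodd : Odd p := Nat.odd_iff.2 (by omega)
  obtain ⟨u, v, rfl⟩ := eq_pz q p hq hq0 hodd hE hb
  have huv := colours_pz q p hq hodd u v hc
  have hJ : J v.col (pz q p u v) = - rt := by rw [J_pz q p u v huv, J_value p hp]
  have hne : J v.col (pz q p u v) ≠ 0 := by rw [hJ]; exact neg_ne_zero.2 rt_ne
  have h3 := J_grows v.col h1 hne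
  have h4 : J v.col ([] : Diagram (Ori ℕ)) = 1 := rfl
  have h5 := J_grows v.col h2 (by rw [h4]; exact one_ne_zero)
  have hmem : v.col ∈ (labels (pz q p u v)).map Ori.col := by
    refine List.mem_map.2 ⟨v, ?_, rfl⟩
    simp [labels, pz, Elem.src, Elem.tgt, Kind.src, Kind.tgt]
  rw [if_pos hmem, h4, zpow_one, mul_one, h3, hJ, Pi.zero_apply, zpow_zero, one_mul] at h5
  have h6 : 2 * rt = 0 := by linear_combination -h5
  exact rt_ne (by simpa using h6)

end Pool.Agent.Helper46.FA
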