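import Pool.Agent.Helper46.FA.Ops

/-!
String operators attached to a list of bits, and their commutation with the
elementary operators.
-/

namespace Pool.Agent.Helper46.FA

set_option linter.unusedSimpArgs false

/-- Flip and sign at the first spin. -/
noncomputable def site (a b : Bool) : Op where
  toFun ψ s := (if s 0 && b then -1 else 1) * ψ (cons (xor (s 0) a) (tl s))
  map_add' := by intro ψ φ; funext s; simp only [Pi.add_apply]; ring
  map_smul' := by
    intro a ψ; funext s; simp only [Pi.smul_apply, smul_eq_mul, RingHom.id_apply]; ring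

@[simp] theorem site_apply (a b : Bool) (ψ : St) (s : Sp) :
    site a b ψ s = (if s 0 && b then -1 else 1) * ψ (cons (xor (s 0) a) (tl s)) := rfl

theorem skip_site (f : Op) (a b : Bool) : skip f * site a b = site a b * skip f := by
  ext ψ s
  show skip f (site a b ψ) s = site a b (skip f ψ) s
  rw [skip_apply]
  have : (fun t => site a b ψ (cons (s 0) t))
      = (if s 0 && b then -1 else 1 : ℂ) • (fun t => ψ (cons (xor (s 0) a) t)) := rfl
  rw [this, map_smul]
  rfl

/-- The string operator of a list of bits. -/
noncomputable def G : Bool → List Bool → Op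
  | p, x :: y :: σ => site (xor p x) (xor x y) * skip (G (xor p (xor x y)) σ)
  | _, [_] => 1
  | _, [] => 1

theorem G_cons (p x y : Bool) (σ : List Bool) :
    G p (x :: y :: σ) = site (xor p x) (xor x y) * skip (G (xor p (xor x y)) σ) := by
  rw [G]

theorem G_nil (p : Bool) : G p [] = 1 := by rw [G]

theorem G_step {g : Op} {p x y : Bool} {σ τ : List Bool} {a : ℂ} {h : Op}
    (H : g * G (xor p (xor x y)) σ = a • (G (xor p (xor x y)) τ * h)) :
    skip g * G p (x :: y :: σ) = a • (G p (x :: y :: τ) * skip h) := by
  rw [G_cons, G_cons, ← mul_assoc, skip_site, mul_assoc, ← map_mul, H, map_smul, map_mul,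
    mul_assoc, mul_smul_comm]

theorem lin_mul (H : Op) (c : ℂ) (φ : St) (s : Sp) : H (fun t => c * φ t) s = c * H φ s := by
  have : (fun t => c * φ t) = c • φ := rfl
  rw [this, map_smul]
  rfl

theorem lin_add (H : Op) (ψ φ : St) (s : Sp) :
    H (fun t => ψ t + φ t) s = H ψ s + H φ s := by
  have : (fun t => ψ t + φ t) = ψ + φ := rfl
  rw [this, map_add]
  rfl

theorem lin_neg (H : Op) (ψ : St) (s : Sp) : H (fun t => - ψ t) s = - H ψ s := by
  have : (fun t => - ψ t) = - ψ := rfl
  rw [this, map_neg]
  rfl

theorem lin_zero (H : Op) (s : Sp) : H (fun _ => 0) s = 0 := by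
  have : (fun _ : Sp => (0 : ℂ)) = 0 := rfl
  rw [this, map_zero]
  rfl

theorem even_sub {a b : ℕ} (h : Even (a + 1 + 1 + b)) : Even (a + b) := by
  obtain ⟨c, hc⟩ := h
  exact ⟨c - 1, by omega⟩

theorem G_cup : ∀ (l r : List Bool) (p m : Bool), Even (l.length + r.length) →
    op .cup l.length * G p (l ++ r) = (1 : ℂ) • (G p (l ++ m :: m :: r) * op .cup l.length)
  | [], r, p, m, _ => by
    ext ψ s
    simp only [List.nil_append, G_cons, one_smul]
    show G p r ψ (tl s) = site (xor p m) (xor m m) (skip (G (xor p (xor m m)) r) (op0 .cup ψ)) s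
    cases m <;> simp [skip_apply]
  | [x], [], p, m, h => by
    exfalso; revert h; simp
  | [x], y :: r, p, m, _ => by
    ext ψ s
    simp only [List.cons_append, List.nil_append, G_cons, one_smul]
    show op1 .cup (site (xor p x) (xor x y) (skip (G (xor p (xor x y)) r) ψ)) s
      = site (xor p x) (xor x m) (skip (site (xor (xor p (xor x m)) m) (xor m y) *
        skip (G (xor (xor p (xor x m)) (xor m y)) r)) (op1 .cup ψ)) s
    obtain ⟨a, t, rfl⟩ := eq_cons s
    obtain ⟨c, t, rfl⟩ := eq_cons t
    cases x <;> cases y <;> cases m <;> cases p <;> cases a <;> cases c <;>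
      simp [skip_apply, lin_mul, lin_zero, Module.End.mul_apply]
  | x :: y :: l, r, p, m, h => by
    have := G_cup l r (xor p (xor x y)) m (even_sub h)
    exact G_step this

theorem G_cap : ∀ (l r : List Bool) (p m : Bool), Even (l.length + r.length) →
    op .cap l.length * G p (l ++ m :: m :: r) = (1 : ℂ) • (G p (l ++ r) * op .cap l.length)
  | [], r, p, m, _ => by
    ext ψ s
    simp only [List.nil_append, G_cons, one_smul]
    show op0 .cap (site (xor p m) (xor m m) (skip (G (xor p (xor m m)) r) ψ)) s
      = G p r (op0 .cap ψ) s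
    have : op0 .cap ψ = (rt / 2) • ((fun t => ψ (cons true t)) + (fun t => ψ (cons false t))) :=
      rfl
    rw [this, map_smul, map_add]
    cases m <;> cases p <;> simp [skip_apply] <;> ring_nf <;> simp
  | [x], [], p, m, h => by
    exfalso; revert h; simp
  | [x], y :: r, p, m, _ => by
    ext ψ s
    simp only [List.cons_append, List.nil_append, G_cons, one_smul]
    show op1 .cap (site (xor p x) (xor x m) (skip (site (xor (xor p (xor x m)) m) (xor m y) *
        skip (G (xor (xor p (xor x m)) (xor m y)) r)) ψ)) s
      = site (xor p x) (xor x y) (skip (G (xor p (xor x y)) r) (op1 .cap ψ)) s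
    obtain ⟨a, t, rfl⟩ := eq_cons s
    cases x <;> cases y <;> cases m <;> cases p <;> cases a <;>
      simp [skip_apply, lin_mul, lin_zero, Module.End.mul_apply]
  | x :: y :: l, r, p, m, h => by
    have := G_cap l r (xor p (xor x y)) m (even_sub h)
    exact G_step this

theorem G_P : ∀ (l r : List Bool) (p m : Bool), Even (l.length + r.length) →
    op .P l.length * G p (l ++ m :: (!m) :: r)
      = (-1 : ℂ) • (G p (l ++ m :: (!m) :: r) * op .P l.length)
  | [], r, p, m, _ => by
    ext ψ s
    simp only [List.nil_append, G_cons]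
    show op0 .P (site (xor p m) (xor m (!m)) (skip (G (xor p (xor m (!m))) r) ψ)) s
      = (-1 : ℂ) • site (xor p m) (xor m (!m)) (skip (G (xor p (xor m (!m))) r) (op0 .P ψ)) s
    obtain ⟨a, t, rfl⟩ := eq_cons s
    cases m <;> cases p <;> cases a <;> simp [skip_apply]
  | [x], [], p, m, h => by
    exfalso; revert h; simp
  | [x], y :: r, p, m, _ => by
    ext ψ s
    simp only [List.cons_append, List.nil_append, G_cons]
    show op1 .P (site (xor p x) (xor x m) (skip (site (xor (xor p (xor x m)) (!m)) (xor (!m) y) *
        skip (G (xor (xor p (xor x m)) (xor (!m) y)) r)) ψ)) s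
      = (-1 : ℂ) • site (xor p x) (xor x m) (skip (site (xor (xor p (xor x m)) (!m)) (xor (!m) y) *
        skip (G (xor (xor p (xor x m)) (xor (!m) y)) r)) (op1 .P ψ)) s
    obtain ⟨a, t, rfl⟩ := eq_cons s
    obtain ⟨c, t, rfl⟩ := eq_cons t
    cases x <;> cases y <;> cases m <;> cases p <;> cases a <;> cases c <;>
      simp [skip_apply, lin_mul, lin_zero, lin_neg, Module.End.mul_apply]
  | x :: y :: l, r, p, m, h => by
    have := G_P l r (xor p (xor x y)) m (even_sub h)
    exact G_step this

/-- The phase of a crossing passing a string operator. -/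
noncomputable def eps (b m n : Bool) : ℕ → ℂ
  | 0 => if m = n then 1 else - ew b
  | 1 => if m = n then 1 else ew b
  | k + 2 => eps b m n k

theorem G_X : ∀ (l r : List Bool) (p m n b : Bool), Even (l.length + r.length) →
    op (.X b) l.length * G p (l ++ m :: n :: r)
      = eps b m n l.length • (G p (l ++ n :: m :: r) * op (.X b) l.length)
  | [], r, p, m, n, b, _ => by
    ext ψ s
    simp only [List.nil_append, G_cons]
    show op0 (.X b) (site (xor p m) (xor m n) (skip (G (xor p (xor m n)) r) ψ)) s
      = eps b m n 0 • site (xor p n) (xor n m) (skip (G (xor p (xor n m)) r) (op0 (.X b) ψ)) s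
    have h := ew_sq b
    obtain ⟨a, t, rfl⟩ := eq_cons s
    cases m <;> cases n <;> cases p <;> cases a <;>
      simp [skip_apply, lin_mul, lin_add, eps]
    all_goals first
      | linear_combination ((1 + ew b) / 2 * G true r (fun t => ψ (cons true t)) t) * h
      | linear_combination ((1 + ew b) / 2 * G true r (fun t => ψ (cons false t)) t) * h
      | linear_combination ((1 + ew b) / 2 * G false r (fun t => ψ (cons true t)) t) * h
      | linear_combination ((1 + ew b) / 2 * G false r (fun t => ψ (cons false t)) t) * h
      | linear_combination (-(1 + ew b) / 2 * G true r (fun t => ψ (cons true t)) t) * h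
      | linear_combination (-(1 + ew b) / 2 * G true r (fun t => ψ (cons false t)) t) * h
      | linear_combination (-(1 + ew b) / 2 * G false r (fun t => ψ (cons true t)) t) * h
      | linear_combination (-(1 + ew b) / 2 * G false r (fun t => ψ (cons false t)) t) * h
  | [x], [], p, m, n, b, h => by
    exfalso; revert h; simp
  | [x], y :: r, p, m, n, b, _ => by
    ext ψ s
    simp only [List.cons_append, List.nil_append, G_cons]
    show op1 (.X b) (site (xor p x) (xor x m) (skip (site (xor (xor p (xor x m)) n) (xor n y) *
        skip (G (xor (xor p (xor x m)) (xor n y)) r)) ψ)) s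
      = eps b m n 1 • site (xor p x) (xor x n) (skip (site (xor (xor p (xor x n)) m) (xor m y) *
        skip (G (xor (xor p (xor x n)) (xor m y)) r)) (op1 (.X b) ψ)) s
    have h : ∀ z, ew b * (ew b * z) = -z := fun z => by linear_combination z * ew_sq b
    obtain ⟨a, t, rfl⟩ := eq_cons s
    obtain ⟨c, t, rfl⟩ := eq_cons t
    cases x <;> cases y <;> cases m <;> cases n <;> cases p <;> cases a <;> cases c <;>
      simp [skip_apply, lin_mul, lin_zero, lin_neg, Module.End.mul_apply, eps, h]
  | x :: y :: l, r, p, m, n, b, h => by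
    have := G_X l r (xor p (xor x y)) m n b (even_sub h)
    exact G_step this

end Pool.Agent.Helper46.FA
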